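import Pool.Agent.Lib.MP_4d0de2_an.Surface

section

section

/-!
# Tangent planes of the surface
-/

namespace Pool.Agent.Lib.MP_4d0de2_an

open Filter Topology Set Complex

/-- the graph of a linear function, as a linear map -/
noncomputable def gr (l : ℂ →L[ℝ] ℝ) : ℂ →ₗ[ℝ] E3 where
  toFun v := emb v (l v)
  map_add' v w := by
    ext i; fin_cases i <;> simp
  map_smul' c v := by
    have h : l (c • v) = c * l v := by rw [map_smul, smul_eq_mul]
    ext i; fin_cases i
    · simp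
    · simp
    · simpa using h

theorem gr_apply (l : ℂ →L[ℝ] ℝ) (v : ℂ) : gr l v = emb v (l v) := rfl

theorem gr_injective (l : ℂ →L[ℝ] ℝ) : Function.Injective (gr l) := fun _ _ h => (emb_inj h).1

theorem finrank_gr (l : ℂ →L[ℝ] ℝ) : Module.finrank ℝ (LinearMap.range (gr l)) = 2 := by
  rw [LinearMap.finrank_range_of_inj (gr_injective l), Complex.finrank_real_complex]

theorem exists_eta {ε : ℝ} (hε : 0 < ε) : ∃ η > 0, η < 1 ∧ ∀ x : ℝ, 1 - η ^ 2 / 2 ≤ x →
    Real.arccos x < ε := by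
  by_cases h : ε ≤ Real.pi
  · have hcos : Real.cos ε < 1 := by
      have := Real.strictAntiOn_cos (left_mem_Icc.2 Real.pi_pos.le) ⟨hε.le, h⟩ hε
      rwa [Real.cos_zero] at this
    refine ⟨min (1 / 2) (1 - Real.cos ε), lt_min (by norm_num) (by linarith),
      (min_le_left _ _).trans_lt (by norm_num), fun x hx => ?_⟩
    set η := min (1 / 2) (1 - Real.cos ε) with hη
    have h0 : 0 < η := lt_min (by norm_num) (by linarith)
    have h1 : η ≤ 1 - Real.cos ε := min_le_right _ _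
    have h2 : η ≤ 1 / 2 := min_le_left _ _
    have h3 : Real.cos ε < x := by nlinarith
    rw [← Real.arccos_cos hε.le h]
    by_cases hx1 : x ≤ 1
    · exact Real.strictAntiOn_arccos ⟨Real.neg_one_le_cos _, hcos.le⟩
        ⟨(Real.neg_one_le_cos ε).trans h3.le, hx1⟩ h3
    · push Not at hx1
      rw [Real.arccos_of_one_le hx1.le, Real.arccos_cos hε.le h]
      exact hε
  · push Not at h
    exact ⟨1 / 2, by norm_num, by norm_num, fun x _ => (Real.arccos_le_pi x).trans_lt h⟩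

theorem inner_ge {u w : E3} {η : ℝ} (h1 : ‖u - w‖ ≤ η * ‖w‖)
    (h2 : ‖u - w‖ ≤ η * ‖u‖) (hu : u ≠ 0) (hw : w ≠ 0) :
    1 - η ^ 2 / 2 ≤ inner ℝ u w / (‖u‖ * ‖w‖) := by
  have hu' : 0 < ‖u‖ := norm_pos_iff.2 hu
  have hw' : 0 < ‖w‖ := norm_pos_iff.2 hw
  rw [le_div_iff₀ (by positivity)]
  have h3 := norm_sub_sq_real u w
  have h4 : ‖u - w‖ ^ 2 ≤ η ^ 2 * (‖u‖ * ‖w‖) := by
    have := mul_le_mul h1 h2 (norm_nonneg _) ((norm_nonneg _).trans h1)
    nlinarith
  nlinarith [sq_nonneg (‖u‖ - ‖w‖)]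

/-- a criterion for tangent planes -/
theorem tangent_of {S : Set E3} {p : ℂ} {z0 : ℝ} (l : ℂ →L[ℝ] ℝ)
    (H : ∀ η > 0, ∃ r > 0, ∀ q z, emb q z ∈ S → ‖emb q z - emb p z0‖ < r →
      |z - z0 - l (q - p)| ≤ η * ‖q - p‖) {ε : ℝ} (hε : 0 < ε) :
    ∃ r > 0, ∀ q ∈ S, q ≠ emb p z0 → dist q (emb p z0) < r →
      ∃ w ∈ LinearMap.range (gr l), w ≠ 0 ∧
        InnerProductGeometry.angle (q - emb p z0) w < ε := by
  obtain ⟨η, hη, -, hη2⟩ := exists_eta hε
  obtain ⟨r, hr, Hr⟩ := H η hη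
  refine ⟨r, hr, fun x hx hne hd => ?_⟩
  obtain ⟨q, z, rfl⟩ : ∃ q z, x = emb q z := ⟨⟨x 0, x 1⟩, x 2, by
    ext i; fin_cases i <;> simp⟩
  have h1 := Hr q z hx (by rwa [← dist_eq_norm])
  have hqp : q ≠ p := by
    rintro rfl
    rw [sub_self, norm_zero, mul_zero, map_zero, sub_zero] at h1
    have : z = z0 := sub_eq_zero.1 (abs_eq_zero.1 (le_antisymm h1 (abs_nonneg _)))
    exact hne (by rw [this])
  have hv : q - p ≠ 0 := sub_ne_zero.2 hqp
  have hw : gr l (q - p) ≠ 0 := fun h => hv (gr_injective l (by rw [h, map_zero]))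
  refine ⟨gr l (q - p), ⟨_, rfl⟩, hw, ?_⟩
  rw [InnerProductGeometry.angle]
  refine hη2 _ (inner_ge ?_ ?_ (sub_ne_zero.2 hne) hw)
  · rw [gr_apply, emb_sub, emb_sub, sub_self]
    refine (norm_emb_le _ _).trans ?_
    rw [norm_zero, zero_add]
    exact h1.trans (mul_le_mul_of_nonneg_left (norm_le_emb _ _) hη.le)
  · rw [gr_apply, emb_sub, emb_sub, sub_self]
    refine (norm_emb_le _ _).trans ?_
    rw [norm_zero, zero_add]
    exact h1.trans (mul_le_mul_of_nonneg_left (norm_le_emb _ _) hη.le)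

theorem mem_S {q : ℂ} {z : ℝ} (h : emb q z ∈ X '' univ) : |z| = ht q := by
  obtain ⟨u, -, hu⟩ := h
  obtain ⟨h1, h2⟩ := emb_inj hu
  rw [← h1, ← h2, abs_sht]

/-- the slope of the tangent plane -/
noncomputable def slope (u : ℝ × ℝ) : ℂ →L[ℝ] ℝ :=
  if sht u = 0 then 0 else if 0 < sht u then fderiv ℝ ht (Th (fd u)) else -fderiv ℝ ht (Th (fd u))

theorem graph_S (u : ℝ × ℝ) {η : ℝ} (hη : 0 < η) : ∃ r > 0, ∀ q z, emb q z ∈ X '' univ →
    ‖emb q z - X u‖ < r → |z - sht u - slope u (q - Th (fd u))| ≤ η * ‖q - Th (fd u)‖ := by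
  have hX : X u = emb (Th (fd u)) (sht u) := rfl
  by_cases h0 : sht u = 0
  · have h1 : ht (Th (fd u)) = 0 := by rw [← abs_sht, h0, abs_zero]
    obtain ⟨r, hr, H⟩ := ht_little h1 hη
    refine ⟨r, hr, fun q z hq hd => ?_⟩
    rw [slope, if_pos h0, zero_apply, h0, sub_zero, sub_zero, mem_S hq]
    refine H q (lt_of_le_of_lt ?_ hd)
    rw [hX, emb_sub]
    exact norm_le_emb _ _
  · have h1 : HasFDerivAt ht (fderiv ℝ ht (Th (fd u))) (Th (fd u)) :=
      differentiable_ht.differentiableAt.hasFDerivAt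
    have h2 := (hasFDerivAt_iff_isLittleO.1 h1).def hη
    obtain ⟨r, hr, H⟩ := Metric.eventually_nhds_iff.1 h2
    refine ⟨min r |sht u|, lt_min hr (abs_pos.2 h0), fun q z hq hd => ?_⟩
    rw [hX, emb_sub] at hd
    have h3 := (norm_le_emb _ _).trans_lt (hd.trans_le (min_le_left _ _))
    have h4 := (abs_le_emb _ _).trans_lt (hd.trans_le (min_le_right _ _))
    have h5 := H (y := q) (by rwa [dist_eq_norm])
    have h6 := mem_S hq
    have h7 := abs_sht u
    rw [slope, if_neg h0]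
    rw [Real.norm_eq_abs] at h5
    rcases lt_or_gt_of_ne h0 with hneg | hpos
    · rw [if_neg (not_lt.2 hneg.le), neg_apply]
      rw [abs_of_neg hneg] at h4 h7
      have h8 : z < 0 := by
        have := (abs_lt.1 h4).2
        linarith
      rw [abs_of_neg h8] at h6
      rw [show z - sht u - -(fderiv ℝ ht (Th (fd u))) (q - Th (fd u)) =
        -(ht q - ht (Th (fd u)) - (fderiv ℝ ht (Th (fd u))) (q - Th (fd u))) by
          rw [← h6, ← h7]; ring, abs_neg]
      exact h5
    · rw [if_pos hpos]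
      rw [abs_of_pos hpos] at h4 h7
      have h8 : 0 < z := by
        have := (abs_lt.1 h4).1
        linarith
      rw [abs_of_pos h8] at h6
      rw [h6, h7]
      exact h5

/-- the surface has a tangent plane at every point -/
theorem exists_tangent (u : ℝ × ℝ) : ∃ W : Submodule ℝ E3, Module.finrank ℝ W = 2 ∧
    ∀ ε > 0, ∃ r > 0, ∀ q ∈ X '' univ, q ≠ X u → dist q (X u) < r →
      ∃ w ∈ W, w ≠ 0 ∧ InnerProductGeometry.angle (q - X u) w < ε :=
  ⟨_, finrank_gr (slope u), fun _ hε => tangent_of (slope u) (fun _ hη => graph_S u hη) hε⟩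

end Pool.Agent.Lib.MP_4d0de2_an
end

section

/-!
# The positions have no tangent lines
-/

namespace Pool.Agent.Lib.MP_4d0de2_an

open Filter Topology Set Complex

/-- closed upper half plane -/
def Up : Set ℂ := {z | 0 ≤ z.im}

/-- weighted version of the expanding map -/
noncomputable def Lw (a b c : ℝ) (p : ℂ) : ℂ := ⟨a * p.re + b * G1 p, a * p.im + c * G2 p⟩

theorem Lw_one (p : ℂ) : Lw 1 1 1 p = L p := by
  apply Complex.ext
  · rw [L_re]; simp [Lw]
  · rw [L_im]; simp [Lw]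

theorem Lw_rho (a b c : ℝ) (d : Bool) {p q : ℂ} (hp : ‖p‖ ≤ 3) (hq : ‖q‖ ≤ 3) :
    Lw a b c (I * ((sg d / 2 : ℝ) + p / 4)) - Lw a b c (I * ((sg d / 2 : ℝ) + q / 4)) =
      I * (Lw (a / 4) (c / 2) b p - Lw (a / 4) (c / 2) b q) := by
  have hL : ∀ p : ℂ, ‖p‖ ≤ 3 → Lw a b c (I * ((sg d / 2 : ℝ) + p / 4)) =
      ⟨a * (-p.im / 4) + b * (1 - G2 p),
        a * (sg d / 2 + p.re / 4) + c * ((1 + sg d) / 4 + G1 p / 2)⟩ := by
    intro p hp
    rw [Lw, re_rho, im_rho, G1_rho, G2_rho _ hp]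
  rw [hL p hp, hL q hq]
  apply Complex.ext
  · simp only [Lw, Complex.sub_re, Complex.mul_re, Complex.I_re, Complex.I_im, Complex.sub_im,
      zero_mul, one_mul]
    ring
  · simp only [Lw, Complex.sub_im, Complex.mul_im, Complex.I_re, Complex.I_im, Complex.sub_re,
      zero_mul, one_mul]
    ring

/-- smallness of a functional on secants -/
def Small (a b c : ℝ) (z : ℂ) (l : ℂ →L[ℝ] ℝ) : Prop :=
  ∀ η > 0, ∀ᶠ z' in 𝓝[Up] z, |l (Lw a b c (F z') - Lw a b c (F z))| ≤
    η * ‖Lw a b c (F z') - Lw a b c (F z)‖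

/-- there is no tangent line -/
def NTL (z : ℂ) : Prop := ∀ a b c : ℝ, 0 < a → 0 ≤ b → 0 ≤ c → ∀ l : ℂ →L[ℝ] ℝ,
  Small a b c z l → l = 0

/-- the direction `e` can be reached -/
def Reach (z e : ℂ) : Prop := ∀ ε > 0, ∃ t : ℝ, t ≠ 0 ∧ |t| < ε ∧
  ∃ z' : ℂ, 0 ≤ z'.im ∧ ‖z' - z‖ < ε ∧ F z' = F z + t * e

theorem small_metric {a b c : ℝ} {z : ℂ} {l : ℂ →L[ℝ] ℝ} (h : Small a b c z l) {η : ℝ}
    (hη : 0 < η) : ∃ ε > 0, ∀ z' : ℂ, ‖z' - z‖ < ε → 0 ≤ z'.im →
      |l (Lw a b c (F z') - Lw a b c (F z))| ≤ η * ‖Lw a b c (F z') - Lw a b c (F z)‖ := by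
  have h1 := h η hη
  rw [eventually_nhdsWithin_iff, Metric.eventually_nhds_iff] at h1
  obtain ⟨ε, hε, H⟩ := h1
  exact ⟨ε, hε, fun z' hz' him => H (by rwa [dist_eq_norm]) him⟩

theorem axis_one {a b c : ℝ} (ha : 0 < a) (hb : 0 ≤ b) {z : ℂ} {l : ℂ →L[ℝ] ℝ}
    (h : Small a b c z l) (hr : Reach z 1) : l 1 = 0 := by
  by_contra h0
  have hpos : 0 < |l 1| := abs_pos.2 h0
  obtain ⟨ε, hε, H⟩ := small_metric h (η := |l 1| / 2) (by positivity)
  obtain ⟨t, ht0, -, z', hz', hd, he⟩ := hr ε hε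
  have h2 := H z' hd hz'
  have e : Lw a b c (F z') - Lw a b c (F z) =
      ((a * t + b * (g (8 * ((F z).re + t)) - g (8 * (F z).re)) : ℝ) : ℂ) := by
    rw [he, mul_one]
    apply Complex.ext
    · simp only [Lw, G1, Complex.sub_re, Complex.add_re, Complex.ofReal_re]; ring
    · simp only [Lw, G2, Complex.sub_im, Complex.add_im, Complex.ofReal_im]; ring_nf
  set x := a * t + b * (g (8 * ((F z).re + t)) - g (8 * (F z).re)) with hx
  have hx0 : x ≠ 0 := by
    rcases lt_or_gt_of_ne ht0 with ht | ht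
    · have h3 : g (8 * ((F z).re + t)) ≤ g (8 * (F z).re) := monotone_g (by linarith)
      have h4 : a * t < 0 := mul_neg_of_pos_of_neg ha ht
      have h5 : b * (g (8 * ((F z).re + t)) - g (8 * (F z).re)) ≤ 0 :=
        mul_nonpos_of_nonneg_of_nonpos hb (by linarith)
      exact ne_of_lt (by linarith)
    · have h3 : g (8 * (F z).re) ≤ g (8 * ((F z).re + t)) := monotone_g (by linarith)
      have h4 : 0 < a * t := mul_pos ha ht
      have h5 : 0 ≤ b * (g (8 * ((F z).re + t)) - g (8 * (F z).re)) :=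
        mul_nonneg hb (by linarith)
      exact ne_of_gt (by linarith)
  have e2 : l (x : ℂ) = x * l 1 := by
    have : (x : ℂ) = x • (1 : ℂ) := by simp
    rw [this, map_smul, smul_eq_mul]
  rw [e, e2, abs_mul, Complex.norm_real, Real.norm_eq_abs] at h2
  have hxp : 0 < |x| := abs_pos.2 hx0
  nlinarith

theorem axis_I {a b c : ℝ} (ha : 0 < a) (hc : 0 ≤ c) {z : ℂ} {l : ℂ →L[ℝ] ℝ}
    (h : Small a b c z l) (hr : Reach z I) : l I = 0 := by
  by_contra h0
  have hpos : 0 < |l I| := abs_pos.2 h0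
  obtain ⟨ε, hε, H⟩ := small_metric h (η := |l I| / 2) (by positivity)
  obtain ⟨t, ht0, -, z', hz', hd, he⟩ := hr ε hε
  have h2 := H z' hd hz'
  have e : Lw a b c (F z') - Lw a b c (F z) =
      ((a * t + c * (g (2 * ((F z).im + t)) - g (2 * (F z).im)) : ℝ) : ℂ) * I := by
    rw [he]
    apply Complex.ext
    · simp only [Lw, G1, Complex.sub_re, Complex.add_re, Complex.mul_re, Complex.ofReal_re,
        Complex.ofReal_im, Complex.I_re, Complex.I_im]
      ring_nf
    · simp only [Lw, G2, Complex.sub_im, Complex.add_im, Complex.mul_im, Complex.ofReal_im,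
        Complex.ofReal_re, Complex.I_re, Complex.I_im]
      ring_nf
  set x := a * t + c * (g (2 * ((F z).im + t)) - g (2 * (F z).im)) with hx
  have hx0 : x ≠ 0 := by
    rcases lt_or_gt_of_ne ht0 with ht | ht
    · have h3 : g (2 * ((F z).im + t)) ≤ g (2 * (F z).im) := monotone_g (by linarith)
      have h4 : a * t < 0 := mul_neg_of_pos_of_neg ha ht
      have h5 : c * (g (2 * ((F z).im + t)) - g (2 * (F z).im)) ≤ 0 :=
        mul_nonpos_of_nonneg_of_nonpos hc (by linarith)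
      exact ne_of_lt (by linarith)
    · have h3 : g (2 * (F z).im) ≤ g (2 * ((F z).im + t)) := monotone_g (by linarith)
      have h4 : 0 < a * t := mul_pos ha ht
      have h5 : 0 ≤ c * (g (2 * ((F z).im + t)) - g (2 * (F z).im)) :=
        mul_nonneg hc (by linarith)
      exact ne_of_gt (by linarith)
  have e2 : l ((x : ℂ) * I) = x * l I := by
    have : (x : ℂ) * I = x • I := by simp
    rw [this, map_smul, smul_eq_mul]
  rw [e, e2, abs_mul, norm_mul, norm_I, mul_one, Complex.norm_real, Real.norm_eq_abs] at h2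
  have hxp : 0 < |x| := abs_pos.2 hx0
  nlinarith

theorem loc_dir {a b c : ℝ} (ha : 0 < a) {z : ℂ} {l : ℂ →L[ℝ] ℝ}
    (h : Small a b c z l) (hLC : ∀ᶠ p in 𝓝 (F z), G1 p = G1 (F z) ∧ G2 p = G2 (F z))
    {e : ℂ} (hr : Reach z e) : l e = 0 := by
  by_contra h0
  have hpos : 0 < |l e| := abs_pos.2 h0
  have hη : 0 < |l e| / (2 * (‖e‖ + 1)) := by positivity
  obtain ⟨ε, hε, H⟩ := small_metric h hη
  have h1 := (continuous_F.tendsto z).eventually hLC
  obtain ⟨δ, hδ, H1⟩ := Metric.eventually_nhds_iff.1 h1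
  obtain ⟨t, ht0, -, z', hz', hd, he⟩ := hr (min ε δ) (lt_min hε hδ)
  have h2 := H z' (hd.trans_le (min_le_left _ _)) hz'
  have h3 := H1 (y := z') (by rw [dist_eq_norm]; exact hd.trans_le (min_le_right _ _))
  have e1 : Lw a b c (F z') - Lw a b c (F z) = (a * t) • e := by
    have e3 : F z' - F z = t * e := by rw [he]; ring
    apply Complex.ext
    · have e4 := congrArg Complex.re e3
      simp only [Complex.sub_re, Complex.re_ofReal_mul] at e4
      rw [Complex.real_smul, Complex.re_ofReal_mul, Complex.sub_re]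
      simp only [Lw, h3.1]
      linear_combination a * e4
    · have e4 := congrArg Complex.im e3
      simp only [Complex.sub_im, Complex.im_ofReal_mul] at e4
      rw [Complex.real_smul, Complex.im_ofReal_mul, Complex.sub_im]
      simp only [Lw, h3.2]
      linear_combination a * e4
  rw [e1, map_smul, smul_eq_mul, abs_mul, norm_smul, Real.norm_eq_abs] at h2
  have hxp : 0 < |a * t| := abs_pos.2 (mul_ne_zero ha.ne' ht0)
  have h4 : |l e| ≤ |l e| / (2 * (‖e‖ + 1)) * ‖e‖ := by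
    have : |a * t| * |l e| ≤ |a * t| * (|l e| / (2 * (‖e‖ + 1)) * ‖e‖) := by
      calc |a * t| * |l e| ≤ |l e| / (2 * (‖e‖ + 1)) * (|a * t| * ‖e‖) := h2
        _ = _ := by ring
    exact le_of_mul_le_mul_left this hxp
  have h5 : |l e| / (2 * (‖e‖ + 1)) * ‖e‖ ≤ |l e| / 2 := by
    rw [div_mul_eq_mul_div, div_le_div_iff₀ (by positivity) (by norm_num)]
    nlinarith [norm_nonneg e]
  linarith

theorem eq_zero_of {l : ℂ →L[ℝ] ℝ} (h1 : l 1 = 0) (h2 : l I = 0) : l = 0 := by
  ext z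
  have e : z = z.re • (1 : ℂ) + z.im • I := by
    apply Complex.ext <;> simp
  rw [e, map_add, map_smul, map_smul, h1, h2]
  simp

theorem NTL_of_axes {z : ℂ} (h1 : Reach z 1) (h2 : Reach z I) : NTL z :=
  fun _ _ _ ha hb hc _ h => eq_zero_of (axis_one ha hb h h1) (axis_I ha hc h h2)

theorem NTL_of_loc {z e1 e2 : ℂ}
    (hLC : ∀ᶠ p in 𝓝 (F z), G1 p = G1 (F z) ∧ G2 p = G2 (F z))
    (h1 : Reach z e1) (h2 : Reach z e2)
    (hspan : ∀ l : ℂ →L[ℝ] ℝ, l e1 = 0 → l e2 = 0 → l = 0) : NTL z :=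
  fun _ _ _ ha _ _ l h => hspan l (loc_dir ha h hLC h1) (loc_dir ha h hLC h2)

/-! ### Local constancy of the code -/

theorem g_of_ge' {x : ℝ} (h : 9 / 8 ≤ x) : g x = 1 := by
  by_cases h2 : 2 ≤ x
  · exact g_of_ge h2
  · push Not at h2
    have h3 : |16 * (x - 1)| ≤ 30 := by
      rw [abs_of_nonneg (by linarith)]; linarith
    have := g_right h3
    rw [show 1 + 16 * (x - 1) / 16 = x by ring, g_of_ge (by linarith : (2 : ℝ) ≤ 16 * (x - 1))] at this
    linarith

theorem g_of_le' {x : ℝ} (h : x ≤ -(9 / 8)) : g x = 0 := by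
  have h1 := g_neg (-x)
  rw [neg_neg] at h1
  rw [h1, g_of_ge' (by linarith)]
  norm_num

theorem g_loc {y : ℝ} (h : |y| < 7 / 8 ∨ 9 / 8 < |y|) : ∀ᶠ y' in 𝓝 y, g y' = g y := by
  rcases h with h | h
  · have h1 : ∀ᶠ y' in 𝓝 y, |y'| < 7 / 8 := continuous_abs.tendsto y (Iio_mem_nhds h)
    filter_upwards [h1] with y' hy'
    rw [g_mid hy'.le, g_mid h.le]
  · rcases lt_abs.1 h with h1 | h1
    · filter_upwards [Ioi_mem_nhds h1] with y' hy'
      rw [g_of_ge' (le_of_lt hy'), g_of_ge' h1.le]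
    · have h2 : y < -(9 / 8) := by linarith
      filter_upwards [Iio_mem_nhds h2] with y' hy'
      rw [g_of_le' (le_of_lt hy'), g_of_le' h2.le]

theorem LC_of {P : ℂ} (h1 : |8 * P.re| < 7 / 8 ∨ 9 / 8 < |8 * P.re|)
    (h2 : |2 * P.im| < 7 / 8 ∨ 9 / 8 < |2 * P.im|) :
    ∀ᶠ p in 𝓝 P, G1 p = G1 P ∧ G2 p = G2 P := by
  have c1 : Continuous fun p : ℂ => 8 * p.re := continuous_const.mul Complex.continuous_re
  have c2 : Continuous fun p : ℂ => 2 * p.im := continuous_const.mul Complex.continuous_im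
  exact ((c1.tendsto P).eventually (g_loc h1)).and ((c2.tendsto P).eventually (g_loc h2))

/-! ### Reachable directions -/

/-- not in the interior of a child disc -/
def Term (z : ℂ) : Prop := 1 / 4 ≤ ‖z - 1 / 2‖ ∧ 1 / 4 ≤ ‖z + 1 / 2‖

theorem term_of_norm {z : ℂ} (h : 3 / 4 ≤ ‖z‖) : Term z := by
  have hn2 : ‖(1 / 2 : ℂ)‖ = 1 / 2 := by norm_num
  constructor
  · have := norm_sub_norm_le z (1 / 2)
    linarith
  · have := norm_sub_norm_le z (-(1 / 2))
    rw [norm_neg, sub_neg_eq_add] at this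
    linarith

theorem F_term {z : ℂ} (h : Term z) : F z = tw z := F_mid h.1 h.2

theorem F_low {z : ℂ} (h : Term z) (h1 : ‖z‖ ≤ 99 / 100) : F z = I * z := by
  rw [F_term h, tw_of_le h1]

theorem reach_of_freq {z e : ℂ} {w : ℝ → ℂ} (hc : Tendsto w (𝓝[≠] 0) (𝓝 z))
    (hf : ∃ᶠ t : ℝ in 𝓝[≠] (0 : ℝ), 0 ≤ (w t).im ∧ F (w t) = F z + t * e) : Reach z e := by
  intro ε hε
  have h1 : ∀ᶠ t : ℝ in 𝓝[≠] (0 : ℝ), t ≠ 0 := eventually_mem_nhdsWithin
  have h2 : ∀ᶠ t : ℝ in 𝓝[≠] (0 : ℝ), |t| < ε := by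
    refine mem_nhdsWithin_of_mem_nhds ?_
    have := (continuous_abs (G := ℝ)).tendsto 0
    rw [abs_zero] at this
    exact this (Iio_mem_nhds hε)
  have h3 : ∀ᶠ t : ℝ in 𝓝[≠] (0 : ℝ), ‖w t - z‖ < ε := by
    have := Metric.tendsto_nhds.1 hc ε hε
    simpa [dist_eq_norm] using this
  obtain ⟨t, ⟨ht1, ht2⟩, ht3, ht4, ht5⟩ := (hf.and_eventually (h1.and (h2.and h3))).exists
  exact ⟨t, ht3, ht4, w t, ht1, ht5, ht2⟩

theorem freq_norm_le (v d : ℂ) : ∃ᶠ t : ℝ in 𝓝[≠] (0 : ℝ), ‖v‖ ≤ ‖v + t * d‖ := by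
  intro h
  rw [eventually_nhdsWithin_iff, Metric.eventually_nhds_iff] at h
  obtain ⟨ε, hε, H⟩ := h
  have h1 := H (y := ε / 2) (by rw [Real.dist_eq, sub_zero, abs_of_pos (by linarith)]; linarith)
    (by simp only [mem_compl_iff, mem_singleton_iff]; linarith)
  have h2 := H (y := -(ε / 2)) (by
    rw [Real.dist_eq, sub_zero, abs_neg, abs_of_pos (by linarith)]; linarith)
    (by simp only [mem_compl_iff, mem_singleton_iff]; linarith)
  rw [not_le] at h1 h2
  have h3 := norm_add_le (v + ((ε / 2 : ℝ) : ℂ) * d) (v + ((-(ε / 2) : ℝ) : ℂ) * d)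
  have e : v + ((ε / 2 : ℝ) : ℂ) * d + (v + ((-(ε / 2) : ℝ) : ℂ) * d) = 2 * v := by
    push_cast; ring
  rw [e, norm_mul] at h3
  have : ‖(2 : ℂ)‖ = 2 := by simp
  rw [this] at h3
  linarith

/-- inverse of the twist -/
noncomputable def twi (p : ℂ) : ℂ := p * exp (-(ang ‖p‖ * I))

theorem continuous_twi : Continuous twi := by
  unfold twi
  exact continuous_id.mul (Complex.continuous_exp.comp
    (((Complex.continuous_ofReal.comp (continuous_ang.comp continuous_norm)).mul
      continuous_const).neg))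

theorem norm_twi (p : ℂ) : ‖twi p‖ = ‖p‖ := by
  unfold twi
  rw [norm_mul, ← neg_mul, ← Complex.ofReal_neg, Complex.norm_exp_ofReal_mul_I, mul_one]

theorem tw_twi (p : ℂ) : tw (twi p) = p := by
  unfold tw
  rw [norm_twi, twi, mul_assoc, ← Complex.exp_add, neg_add_cancel, Complex.exp_zero, mul_one]

theorem twi_tw (p : ℂ) : twi (tw p) = p := tw_injective (tw_twi _)

theorem tendsto_twi (z e : ℂ) :
    Tendsto (fun t : ℝ => twi (tw z + t * e)) (𝓝[≠] 0) (𝓝 z) := by
  have h1 : Continuous fun t : ℝ => twi (tw z + t * e) :=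
    continuous_twi.comp (continuous_const.add (Complex.continuous_ofReal.mul continuous_const))
  have h2 := h1.tendsto 0
  rw [Complex.ofReal_zero, zero_mul, add_zero, twi_tw] at h2
  exact h2.mono_left nhdsWithin_le_nhds

theorem reach_twi {z e : ℂ} (hz : Term z)
    (hf : ∃ᶠ t : ℝ in 𝓝[≠] (0 : ℝ), 0 ≤ (twi (tw z + t * e)).im ∧ Term (twi (tw z + t * e))) :
    Reach z e := by
  refine reach_of_freq (tendsto_twi z e) (hf.mono fun t ht => ⟨ht.1, ?_⟩)
  rw [F_term ht.2, tw_twi, F_term hz]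

/-- all directions are reachable from strictly terminal points of the open half plane -/
theorem reach_strict {z : ℂ} (e : ℂ) (h0 : 0 < z.im) (h1 : 1 / 4 < ‖z - 1 / 2‖)
    (h2 : 1 / 4 < ‖z + 1 / 2‖) : Reach z e := by
  refine reach_twi ⟨h1.le, h2.le⟩ (Eventually.frequently ?_)
  have hU : {w : ℂ | 0 < w.im ∧ 1 / 4 < ‖w - 1 / 2‖ ∧ 1 / 4 < ‖w + 1 / 2‖} ∈ 𝓝 z := by
    refine IsOpen.mem_nhds ?_ ⟨h0, h1, h2⟩
    exact (isOpen_lt continuous_const Complex.continuous_im).inter
      ((isOpen_lt continuous_const (continuous_id.sub continuous_const).norm).inter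
        (isOpen_lt continuous_const (continuous_id.add continuous_const).norm))
  filter_upwards [tendsto_twi z e hU] with t ht
  exact ⟨ht.1.le, ht.2.1.le, ht.2.2.le⟩

theorem norm_le_of_near {z : ℂ} (h : ‖z - 1 / 2‖ ≤ 1 / 4 ∨ ‖z + 1 / 2‖ ≤ 1 / 4) : ‖z‖ ≤ 3 / 4 := by
  have hn2 : ‖(1 / 2 : ℂ)‖ = 1 / 2 := by norm_num
  rcases h with h | h
  · have := norm_add_le (z - 1 / 2) (1 / 2)
    rw [sub_add_cancel] at this
    linarith
  · have := norm_add_le (z + 1 / 2) (-(1 / 2))
    rw [add_neg_cancel_right, norm_neg] at this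
    linarith

theorem tendsto_line (z d : ℂ) : Tendsto (fun t : ℝ => z + t * d) (𝓝[≠] 0) (𝓝 z) := by
  have h1 : Continuous fun t : ℝ => z + t * d :=
    continuous_const.add (Complex.continuous_ofReal.mul continuous_const)
  have h2 := h1.tendsto 0
  rw [Complex.ofReal_zero, zero_mul, add_zero] at h2
  exact h2.mono_left nhdsWithin_le_nhds

theorem reach_bdry {z : ℂ} (e : ℂ) (h0 : 0 < z.im) (h : Term z)
    (h1 : ‖z - 1 / 2‖ = 1 / 4 ∨ ‖z + 1 / 2‖ = 1 / 4) : Reach z e := by
  have hn : ‖z‖ ≤ 3 / 4 := norm_le_of_near (h1.imp le_of_eq le_of_eq)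
  have hU : {w : ℂ | 0 < w.im ∧ ‖w‖ < 99 / 100} ∈ 𝓝 z := by
    refine IsOpen.mem_nhds ?_ ⟨h0, by linarith⟩
    exact (isOpen_lt continuous_const Complex.continuous_im).inter
      (isOpen_lt continuous_norm continuous_const)
  have hev := tendsto_line z (-I * e) hU
  have hfr : ∃ᶠ t : ℝ in 𝓝[≠] (0 : ℝ), Term (z + t * (-I * e)) := by
    rcases h1 with h1 | h1
    · have hfar : {w : ℂ | 1 / 4 < ‖w + 1 / 2‖} ∈ 𝓝 z := by
        refine IsOpen.mem_nhds (isOpen_lt continuous_const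
          (continuous_id.add continuous_const).norm) ?_
        have h2 := norm_sub_le (z + 1 / 2) (z - 1 / 2)
        rw [show z + 1 / 2 - (z - 1 / 2) = 1 by ring, norm_one] at h2
        show 1 / 4 < ‖z + 1 / 2‖
        linarith
      refine ((freq_norm_le (z - 1 / 2) (-I * e)).and_eventually
        (tendsto_line z (-I * e) hfar)).mono fun t ht => ⟨?_, le_of_lt ht.2⟩
      have h3 := ht.1
      rw [h1] at h3
      rwa [show z + t * (-I * e) - 1 / 2 = z - 1 / 2 + t * (-I * e) by ring]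
    · have hfar : {w : ℂ | 1 / 4 < ‖w - 1 / 2‖} ∈ 𝓝 z := by
        refine IsOpen.mem_nhds (isOpen_lt continuous_const
          (continuous_id.sub continuous_const).norm) ?_
        have h2 := norm_sub_le (z + 1 / 2) (z - 1 / 2)
        rw [show z + 1 / 2 - (z - 1 / 2) = 1 by ring, norm_one] at h2
        show 1 / 4 < ‖z - 1 / 2‖
        linarith
      refine ((freq_norm_le (z + 1 / 2) (-I * e)).and_eventually
        (tendsto_line z (-I * e) hfar)).mono fun t ht => ⟨le_of_lt ht.2, ?_⟩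
      have h3 := ht.1
      rw [h1] at h3
      rwa [show z + t * (-I * e) + 1 / 2 = z + 1 / 2 + t * (-I * e) by ring]
  refine reach_of_freq (tendsto_line z (-I * e)) ((hfr.and_eventually hev).mono ?_)
  rintro t ⟨ht1, ht2, ht3⟩
  refine ⟨ht2.le, ?_⟩
  rw [F_low ht1 ht3.le, F_low h (by linarith)]
  linear_combination (-(t : ℂ) * e) * Complex.I_mul_I

theorem NTL_interior {z : ℂ} (h0 : 0 < z.im) (h : Term z) : NTL z := by
  by_cases h1 : ‖z - 1 / 2‖ = 1 / 4 ∨ ‖z + 1 / 2‖ = 1 / 4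
  · exact NTL_of_axes (reach_bdry 1 h0 h h1) (reach_bdry I h0 h h1)
  · rw [not_or] at h1
    have h2 := lt_of_le_of_ne h.1 (Ne.symm h1.1)
    have h3 := lt_of_le_of_ne h.2 (Ne.symm h1.2)
    exact NTL_of_axes (reach_strict 1 h0 h2 h3) (reach_strict I h0 h2 h3)

end Pool.Agent.Lib.MP_4d0de2_an
end

section

/-!
# No tangent lines at the edge points
-/

namespace Pool.Agent.Lib.MP_4d0de2_an

open Filter Topology Set Complex

theorem norm_real_sub (x : ℝ) : ‖(x : ℂ) - 1 / 2‖ = |x - 1 / 2| := by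
  rw [← Real.norm_eq_abs, ← Complex.norm_real]; push_cast; rfl

theorem norm_real_add (x : ℝ) : ‖(x : ℂ) + 1 / 2‖ = |x + 1 / 2| := by
  rw [← Real.norm_eq_abs, ← Complex.norm_real]; push_cast; rfl

theorem norm_real' (x : ℝ) : ‖(x : ℂ)‖ = |x| := by
  rw [Complex.norm_real, Real.norm_eq_abs]

/-! ### Outside the unit disc -/

theorem NTL_outer {x : ℝ} (h : 1 ≤ |x|) : NTL x := by
  have hF : F x = x := F_of_ge (by rwa [norm_real'])
  refine NTL_of_axes ?_ ?_
  · intro ε hε
    rcases le_abs.1 h with h1 | h1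
    · refine ⟨ε / 2, by linarith, by rw [abs_of_pos (by linarith)]; linarith,
        ((x + ε / 2 : ℝ) : ℂ), by simp, ?_, ?_⟩
      · rw [← Complex.ofReal_sub, norm_real', add_sub_cancel_left, abs_of_pos (by linarith)]
        linarith
      · rw [F_of_ge (by rw [norm_real']; exact le_abs.2 (Or.inl (by linarith))), hF]
        push_cast; ring
    · refine ⟨-(ε / 2), by linarith, by rw [abs_neg, abs_of_pos (by linarith)]; linarith,
        ((x - ε / 2 : ℝ) : ℂ), by simp, ?_, ?_⟩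
      · rw [← Complex.ofReal_sub, norm_real', sub_sub_cancel_left, abs_neg, abs_of_pos (by linarith)]
        linarith
      · rw [F_of_ge (by rw [norm_real']; exact le_abs.2 (Or.inr (by linarith))), hF]
        push_cast; ring
  · intro ε hε
    refine ⟨ε / 2, by linarith, by rw [abs_of_pos (by linarith)]; linarith,
        (x : ℂ) + (ε / 2 : ℝ) * I, ?_, ?_, ?_⟩
    · simp only [Complex.add_im, Complex.ofReal_im, Complex.im_ofReal_mul, Complex.I_im]
      linarith
    · rw [add_sub_cancel_left, norm_mul, norm_I, mul_one, norm_real', abs_of_pos (by linarith)]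
      linarith
    · have h2 : 1 ≤ ‖(x : ℂ) + (ε / 2 : ℝ) * I‖ := by
        have := Complex.abs_re_le_norm ((x : ℂ) + (ε / 2 : ℝ) * I)
        simp only [Complex.add_re, Complex.ofReal_re, Complex.re_ofReal_mul, Complex.I_re,
          mul_zero, add_zero] at this
        linarith
      rw [F_of_ge h2, hF]

/-! ### The part where the map is a rotation -/

theorem exists_near {a b x ε : ℝ} (hab : a < b) (hx : x ∈ Icc a b) (hε : 0 < ε) :
    ∃ x' ∈ Icc a b, x' ≠ x ∧ |x' - x| < ε := by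
  by_cases h : x < b
  · refine ⟨min b (x + ε / 2), ⟨le_min hab.le (by linarith [hx.1]), min_le_left _ _⟩, ?_, ?_⟩
    · exact ne_of_gt (lt_min h (by linarith))
    · have h1 : x ≤ min b (x + ε / 2) := le_min h.le (by linarith)
      have h2 : min b (x + ε / 2) ≤ x + ε / 2 := min_le_right _ _
      rw [abs_of_nonneg (by linarith)]
      linarith
  · have hxb : x = b := le_antisymm hx.2 (not_lt.1 h)
    refine ⟨max a (x - ε / 2), ⟨le_max_left _ _, max_le hab.le (by linarith [hx.2])⟩, ?_, ?_⟩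
    · exact ne_of_lt (max_lt (by linarith) (by linarith))
    · have h1 : max a (x - ε / 2) ≤ x := max_le (by linarith) (by linarith)
      have h2 : x - ε / 2 ≤ max a (x - ε / 2) := le_max_right _ _
      rw [abs_of_nonpos (by linarith)]
      linarith

theorem term_real {x : ℝ} : Term (x : ℂ) ↔ |x| ≤ 1 / 4 ∨ 3 / 4 ≤ |x| := by
  rw [Term, norm_real_sub, norm_real_add]
  constructor
  · rintro ⟨h1, h2⟩
    by_contra h
    rw [not_or, not_le, not_le] at h
    obtain ⟨h3, h4⟩ := h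
    rcases le_abs.1 h1 with h1 | h1 <;> rcases le_abs.1 h2 with h2 | h2 <;>
      rcases lt_abs.1 h3 with h3 | h3 <;> rw [abs_lt] at h4 <;> linarith [h4.1, h4.2]
  · rintro (h | h)
    · rw [abs_le] at h
      constructor
      · rw [le_abs]; right; linarith
      · rw [le_abs]; left; linarith
    · rcases le_abs.1 h with h | h
      · constructor
        · rw [le_abs]; left; linarith
        · rw [le_abs]; left; linarith
      · constructor
        · rw [le_abs]; right; linarith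
        · rw [le_abs]; right; linarith

theorem exists_near_term {x ε : ℝ} (h : Term (x : ℂ)) (h1 : |x| ≤ 99 / 100) (hε : 0 < ε) :
    ∃ x' : ℝ, Term (x' : ℂ) ∧ |x'| ≤ 99 / 100 ∧ x' ≠ x ∧ |x' - x| < ε := by
  rcases term_real.1 h with h2 | h2
  · obtain ⟨x', hx', hne, hd⟩ := exists_near (a := -(1 / 4)) (b := 1 / 4) (by norm_num)
      (abs_le.1 h2) hε
    have h3 : |x'| ≤ 1 / 4 := abs_le.2 hx'
    exact ⟨x', term_real.2 (Or.inl h3), by linarith, hne, hd⟩
  · rcases le_abs.1 h2 with h3 | h3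
    · obtain ⟨x', hx', hne, hd⟩ := exists_near (a := 3 / 4) (b := 99 / 100) (by norm_num)
        ⟨h3, (abs_le.1 h1).2⟩ hε
      have h4 : |x'| = x' := abs_of_nonneg (by linarith [hx'.1])
      exact ⟨x', term_real.2 (Or.inr (by rw [h4]; exact hx'.1)), by rw [h4]; exact hx'.2, hne, hd⟩
    · obtain ⟨x', hx', hne, hd⟩ := exists_near (a := -(99 / 100)) (b := -(3 / 4)) (by norm_num)
        ⟨(abs_le.1 h1).1, by linarith⟩ hε
      have h4 : |x'| = -x' := abs_of_nonpos (by linarith [hx'.2])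
      exact ⟨x', term_real.2 (Or.inr (by rw [h4]; linarith [hx'.2])), by
        rw [h4]; linarith [hx'.1], hne, hd⟩

theorem NTL_rot {x : ℝ} (h : Term (x : ℂ)) (h1 : |x| ≤ 99 / 100) : NTL x := by
  have hF : F x = I * x := F_low h (by rwa [norm_real'])
  have hre : (F x).re = 0 := by
    rw [hF]; simp
  have him : (F x).im = x := by
    rw [hF]; simp
  have hLC : ∀ᶠ p in 𝓝 (F x), G1 p = G1 (F x) ∧ G2 p = G2 (F x) := by
    refine LC_of ?_ ?_
    · left; rw [hre]; norm_num
    · rw [him, abs_mul, abs_two]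
      rcases term_real.1 h with h2 | h2
      · left; linarith
      · right; linarith
  have hI : Reach x I := by
    intro ε hε
    obtain ⟨x', h2, h3, h4, h5⟩ := exists_near_term h h1 hε
    refine ⟨x' - x, sub_ne_zero.2 h4, h5, x', by simp, by
      rw [← Complex.ofReal_sub, norm_real']; exact h5, ?_⟩
    rw [F_low h2 (by rwa [norm_real']), hF]
    push_cast; ring
  by_cases h2 : |x| < 99 / 100
  · have h3 : Reach x 1 := by
      intro ε hε
      obtain ⟨s, hs0, hs1⟩ := exists_between (show 0 < min ε (99 / 100 - |x|) from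
        lt_min hε (by linarith))
      have hs2 : s < ε := hs1.trans_le (min_le_left _ _)
      have hs3 : s < 99 / 100 - |x| := hs1.trans_le (min_le_right _ _)
      refine ⟨-s, by linarith, by rw [abs_neg, abs_of_pos hs0]; exact hs2,
        (x : ℂ) + s * I, ?_, ?_, ?_⟩
      · simp only [Complex.add_im, Complex.ofReal_im, Complex.im_ofReal_mul, Complex.I_im]
        linarith
      · rw [add_sub_cancel_left, norm_mul, norm_I, mul_one, norm_real', abs_of_pos hs0]
        exact hs2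
      · have hT : Term ((x : ℂ) + s * I) := by
          constructor
          · refine le_trans h.1 ?_
            rw [norm_real_sub]
            have := Complex.abs_re_le_norm ((x : ℂ) + s * I - 1 / 2)
            simpa using this
          · refine le_trans h.2 ?_
            rw [norm_real_add]
            have := Complex.abs_re_le_norm ((x : ℂ) + s * I + 1 / 2)
            simpa using this
        have hN : ‖(x : ℂ) + s * I‖ ≤ 99 / 100 := by
          have := norm_add_le (x : ℂ) (s * I)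
          rw [norm_mul, norm_I, mul_one, norm_real', norm_real', abs_of_pos hs0] at this
          linarith
        rw [F_low hT hN, hF]
        push_cast
        linear_combination (s : ℂ) * Complex.I_mul_I
    exact NTL_of_loc hLC hI h3 fun l a b => eq_zero_of b a
  · have hx : |x| = 99 / 100 := le_antisymm h1 (not_lt.1 h2)
    have hx2 : x ^ 2 = (99 / 100) ^ 2 := by rw [← sq_abs, hx]
    have h3 : Reach x (1 + x * I) := by
      intro ε hε
      obtain ⟨s, hs0, hs1⟩ := exists_between (show 0 < min (ε / 2) (1 / 10) from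
        lt_min (by linarith) (by norm_num))
      have hs2 : s < ε / 2 := hs1.trans_le (min_le_left _ _)
      have hs3 : s < 1 / 10 := hs1.trans_le (min_le_right _ _)
      have hN2 : ‖((x * (1 - s) : ℝ) : ℂ) + s * I‖ ^ 2 = (x * (1 - s)) ^ 2 + s ^ 2 := by
        rw [Complex.sq_norm, Complex.normSq_apply]
        simp only [Complex.add_re, Complex.add_im, Complex.ofReal_re, Complex.ofReal_im,
          Complex.re_ofReal_mul, Complex.im_ofReal_mul, Complex.I_re, Complex.I_im]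
        ring
      refine ⟨-s, by linarith, by rw [abs_neg, abs_of_pos hs0]; linarith,
        ((x * (1 - s) : ℝ) : ℂ) + s * I, ?_, ?_, ?_⟩
      · simp only [Complex.add_im, Complex.ofReal_im, Complex.im_ofReal_mul, Complex.I_im]
        linarith
      · have e : ((x * (1 - s) : ℝ) : ℂ) + s * I - x = ((-(x * s) : ℝ) : ℂ) + s * I := by
          push_cast; ring
        rw [e]
        have := norm_add_le ((-(x * s) : ℝ) : ℂ) (s * I)
        rw [norm_mul, norm_I, mul_one, norm_real', norm_real', abs_of_pos hs0, abs_neg, abs_mul,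
          abs_of_pos hs0, hx] at this
        linarith
      · have hN : ‖((x * (1 - s) : ℝ) : ℂ) + s * I‖ ≤ 99 / 100 := by
          refine abs_le_of_sq_le_sq' ?_ (by norm_num) |>.2
          rw [hN2, mul_pow, hx2]
          nlinarith
        have hT : Term (((x * (1 - s) : ℝ) : ℂ) + s * I) := by
          refine term_of_norm ?_
          refine abs_le_of_sq_le_sq' ?_ (norm_nonneg _) |>.2
          rw [hN2, mul_pow, hx2]
          nlinarith
        rw [F_low hT hN, hF]
        push_cast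
        linear_combination (s : ℂ) * Complex.I_mul_I
    refine NTL_of_loc hLC hI h3 fun l a b => eq_zero_of ?_ a
    have e : (1 + x * I : ℂ) = (1 : ℂ) + x • I := by simp
    rw [e, map_add, map_smul, a, smul_zero, add_zero] at b
    exact b

/-! ### The spiral -/

theorem ang_mid {r : ℝ} (h1 : 99 / 100 ≤ r) (h2 : r ≤ 1) : ang r = 250 * Real.pi * (1 - r) := by
  rw [ang, max_eq_right (by linarith), min_eq_right (by linarith)]
  ring

theorem freq_of_deriv {f : ℝ → ℝ} {d : ℝ} (hf : HasDerivAt f d 0) (h0 : f 0 = 0) (hd : d ≠ 0) :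
    ∃ᶠ t : ℝ in 𝓝[≠] (0 : ℝ), 0 ≤ f t := by
  intro h
  apply hd
  refine IsLocalMax.hasDerivAt_eq_zero (f := f) (a := 0) ?_ hf
  rw [eventually_nhdsWithin_iff] at h
  filter_upwards [h] with t ht
  by_cases h1 : t = 0
  · rw [h1]
  · rw [h0]
    exact (not_le.1 (ht h1)).le

/-- the imaginary part of the inverse twist along a line -/
noncomputable def fim (u v p q : ℝ) (t : ℝ) : ℝ :=
  (v + t * q) * Real.cos (250 * Real.pi * (1 - √((u + t * p) ^ 2 + (v + t * q) ^ 2))) -
  (u + t * p) * Real.sin (250 * Real.pi * (1 - √((u + t * p) ^ 2 + (v + t * q) ^ 2)))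

theorem hasDerivAt_fim {u v p q r : ℝ} (hr : 0 < r) (huv : u ^ 2 + v ^ 2 = r ^ 2) :
    HasDerivAt (fim u v p q)
      (q * Real.cos (250 * Real.pi * (1 - r)) - p * Real.sin (250 * Real.pi * (1 - r)) +
        250 * Real.pi * ((u * p + v * q) / r) * (v * Real.sin (250 * Real.pi * (1 - r)) +
          u * Real.cos (250 * Real.pi * (1 - r)))) 0 := by
  have hu : HasDerivAt (fun t : ℝ => u + t * p) p 0 := by
    simpa using ((hasDerivAt_id (0 : ℝ)).mul_const p).const_add u
  have hv : HasDerivAt (fun t : ℝ => v + t * q) q 0 := by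
    simpa using ((hasDerivAt_id (0 : ℝ)).mul_const q).const_add v
  have hs : √(u ^ 2 + v ^ 2) = r := by rw [huv, Real.sqrt_sq hr.le]
  have hN : HasDerivAt (fun t : ℝ => (u + t * p) ^ 2 + (v + t * q) ^ 2) (2 * (u * p + v * q)) 0 := by
    have := (hu.pow 2).add (hv.pow 2)
    refine this.congr_deriv ?_
    simp
    ring
  have hne : (u + 0 * p) ^ 2 + (v + 0 * q) ^ 2 ≠ 0 := by
    simp only [zero_mul, add_zero]
    rw [huv]; positivity
  have hR : HasDerivAt (fun t : ℝ => √((u + t * p) ^ 2 + (v + t * q) ^ 2)) ((u * p + v * q) / r) 0 := by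
    refine (hN.sqrt hne).congr_deriv ?_
    simp only [zero_mul, add_zero]
    rw [hs]
    field_simp
  have hphi : HasDerivAt (fun t : ℝ => 250 * Real.pi * (1 - √((u + t * p) ^ 2 + (v + t * q) ^ 2)))
      (250 * Real.pi * (-((u * p + v * q) / r))) 0 := (hR.const_sub 1).const_mul _
  have hcos := hphi.cos
  have hsin := hphi.sin
  have := (hv.mul hcos).sub (hu.mul hsin)
  refine this.congr_deriv ?_
  simp only [zero_mul, add_zero]
  rw [hs]
  ring

theorem twi_im {p : ℂ} (h1 : 99 / 100 ≤ ‖p‖) (h2 : ‖p‖ ≤ 1) : (twi p).im =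
    p.im * Real.cos (250 * Real.pi * (1 - √(p.re ^ 2 + p.im ^ 2))) -
    p.re * Real.sin (250 * Real.pi * (1 - √(p.re ^ 2 + p.im ^ 2))) := by
  rw [twi, ang_mid h1 h2, Complex.norm_eq_sqrt_sq_add_sq, ← neg_mul, ← Complex.ofReal_neg,
    Complex.mul_im, Complex.exp_ofReal_mul_I_re, Complex.exp_ofReal_mul_I_im, Real.cos_neg,
    Real.sin_neg]
  ring

theorem reach_spiral {x : ℝ} (h1 : 99 / 100 < |x|) (h2 : |x| < 1) (p q : ℝ)
    (hd : q * (Real.cos (250 * Real.pi * (1 - |x|)) +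
      250 * Real.pi * |x| * Real.sin (250 * Real.pi * (1 - |x|))) +
      p * (250 * Real.pi * |x| * Real.cos (250 * Real.pi * (1 - |x|)) -
      Real.sin (250 * Real.pi * (1 - |x|))) ≠ 0) :
    Reach x (⟨p, q⟩ : ℂ) := by
  set φ := 250 * Real.pi * (1 - |x|) with hφ
  have hT : Term (x : ℂ) := term_of_norm (by rw [norm_real']; linarith)
  have htw : tw (x : ℂ) = ⟨x * Real.cos φ, x * Real.sin φ⟩ := by
    rw [tw, norm_real', ang_mid h1.le h2.le]
    apply Complex.ext
    · rw [Complex.re_ofReal_mul, Complex.exp_ofReal_mul_I_re]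
    · rw [Complex.im_ofReal_mul, Complex.exp_ofReal_mul_I_im]
  have hx0 : 0 < |x| := by linarith
  have huv : (x * Real.cos φ) ^ 2 + (x * Real.sin φ) ^ 2 = |x| ^ 2 := by
    rw [sq_abs]
    have := Real.sin_sq_add_cos_sq φ
    linear_combination x ^ 2 * this
  have hder := hasDerivAt_fim (p := p) (q := q) hx0 huv
  rw [← hφ] at hder
  have hfr := freq_of_deriv hder (by
    have hs : √((x * Real.cos φ) ^ 2 + (x * Real.sin φ) ^ 2) = |x| := by
      rw [huv, Real.sqrt_sq hx0.le]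
    simp only [fim, zero_mul, add_zero]
    rw [hs, ← hφ]
    ring) (by
    have hsc := Real.sin_sq_add_cos_sq φ
    have hxx : x ^ 2 = |x| ^ 2 := (sq_abs x).symm
    have e : q * Real.cos φ - p * Real.sin φ +
        250 * Real.pi * ((x * Real.cos φ * p + x * Real.sin φ * q) / |x|) *
          (x * Real.sin φ * Real.sin φ + x * Real.cos φ * Real.cos φ) =
        q * (Real.cos φ + 250 * Real.pi * |x| * Real.sin φ) +
        p * (250 * Real.pi * |x| * Real.cos φ - Real.sin φ) := by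
      have e1 : x * Real.sin φ * Real.sin φ + x * Real.cos φ * Real.cos φ = x := by
        linear_combination x * hsc
      rw [e1]
      have e2 : 250 * Real.pi * ((x * Real.cos φ * p + x * Real.sin φ * q) / |x|) * x =
          250 * Real.pi * |x| * (Real.cos φ * p + Real.sin φ * q) := by
        field_simp
        rw [hxx]
        ring
      rw [e2]
      ring
    rw [e]
    exact hd)
  refine reach_twi hT ?_
  have hcont : Tendsto (fun t : ℝ => tw (x : ℂ) + t * (⟨p, q⟩ : ℂ)) (𝓝[≠] 0) (𝓝 (tw (x : ℂ))) :=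
    tendsto_line _ _
  have hn : ‖tw (x : ℂ)‖ = |x| := by rw [norm_tw, norm_real']
  have hU : {w : ℂ | 99 / 100 < ‖w‖ ∧ ‖w‖ < 1} ∈ 𝓝 (tw (x : ℂ)) := by
    refine IsOpen.mem_nhds ?_ ⟨by rw [hn]; exact h1, by rw [hn]; exact h2⟩
    exact (isOpen_lt continuous_const continuous_norm).inter
      (isOpen_lt continuous_norm continuous_const)
  refine (hfr.and_eventually (hcont hU)).mono ?_
  rintro t ⟨ht1, ht2, ht3⟩
  refine ⟨?_, term_of_norm (by rw [norm_twi]; linarith)⟩
  rw [twi_im ht2.le ht3.le, htw]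
  have e1 : ((⟨x * Real.cos φ, x * Real.sin φ⟩ : ℂ) + t * (⟨p, q⟩ : ℂ)).re =
      x * Real.cos φ + t * p := by
    rw [Complex.add_re, Complex.re_ofReal_mul]
  have e2 : ((⟨x * Real.cos φ, x * Real.sin φ⟩ : ℂ) + t * (⟨p, q⟩ : ℂ)).im =
      x * Real.sin φ + t * q := by
    rw [Complex.add_im, Complex.im_ofReal_mul]
  rw [e1, e2]
  exact ht1

theorem small_of {K c s : ℝ} (hK : 700 ≤ K) (h : |s| = K * |c|) (hs : s ^ 2 + c ^ 2 = 1) :
    |c| ≤ 1 / 700 ∧ 9 / 10 ≤ |s| := by
  have h1 : |s| ^ 2 + |c| ^ 2 = 1 := by rw [sq_abs, sq_abs]; exact hs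
  have hc := abs_nonneg c
  have hs0 := abs_nonneg s
  have hs1 : |s| ≤ 1 := by nlinarith
  have hc1 : |c| ≤ 1 / 700 := by
    have : 700 * |c| ≤ 1 := by nlinarith
    linarith
  refine ⟨hc1, ?_⟩
  nlinarith

theorem NTL_spiral {x : ℝ} (h1 : 99 / 100 < |x|) (h2 : |x| < 1) : NTL x := by
  set φ := 250 * Real.pi * (1 - |x|) with hφ
  set c := Real.cos φ with hc
  set s := Real.sin φ with hs
  set K := 250 * Real.pi * |x| with hK
  have hsc : s ^ 2 + c ^ 2 = 1 := Real.sin_sq_add_cos_sq φ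
  have hK700 : 700 ≤ K := by
    have := Real.pi_gt_three
    rw [hK]
    nlinarith
  have hFx : F (x : ℂ) = ⟨x * c, x * s⟩ := by
    rw [F_term (term_of_norm (by rw [norm_real']; linarith)), tw, norm_real',
      ang_mid h1.le h2.le]
    apply Complex.ext
    · rw [Complex.re_ofReal_mul, Complex.exp_ofReal_mul_I_re]
    · rw [Complex.im_ofReal_mul, Complex.exp_ofReal_mul_I_im]
  have hreach : ∀ p q : ℝ, q * (c + K * s) + p * (K * c - s) ≠ 0 → Reach x (⟨p, q⟩ : ℂ) :=
    fun p q h => reach_spiral h1 h2 p q h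
  have e1 : (⟨1, 0⟩ : ℂ) = 1 := rfl
  have e2 : (⟨0, 1⟩ : ℂ) = I := rfl
  have e3 : (⟨1, 1⟩ : ℂ) = 1 + I := by apply Complex.ext <;> simp
  by_cases hA : K * c - s = 0
  · -- vertical position
    have hAs : |s| = K * |c| := by
      have : s = K * c := by linarith
      rw [this, abs_mul, abs_of_pos (by linarith)]
    obtain ⟨hc1, hs1⟩ := small_of hK700 hAs hsc
    have hB : c + K * s ≠ 0 := by
      intro hB
      have h3 : c = -(K * s) := by linarith
      have h4 : s = K * c := by linarith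
      have h5 : |c| = K * |s| := by rw [h3, abs_neg, abs_mul, abs_of_pos (by linarith : 0 < K)]
      nlinarith [abs_nonneg c]
    have hLC : ∀ᶠ p in 𝓝 (F x), G1 p = G1 (F x) ∧ G2 p = G2 (F x) := by
      rw [hFx]
      refine LC_of ?_ ?_
      · left
        show |8 * (x * c)| < 7 / 8
        rw [abs_mul, abs_mul, abs_of_pos (by norm_num : (0 : ℝ) < 8)]
        nlinarith [abs_nonneg c, abs_nonneg x]
      · right
        show 9 / 8 < |2 * (x * s)|
        rw [abs_mul, abs_mul, abs_two]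
        nlinarith [abs_nonneg s, abs_nonneg x]
    have r1 : Reach x I := by
      rw [← e2]; exact hreach 0 1 (by rw [one_mul, zero_mul, add_zero]; exact hB)
    have r2 : Reach x (1 + I) := by
      rw [← e3]; exact hreach 1 1 (by rw [one_mul, one_mul, hA, add_zero]; exact hB)
    refine NTL_of_loc hLC r1 r2 fun l a b => eq_zero_of ?_ a
    rw [map_add, a, add_zero] at b
    exact b
  · by_cases hB : c + K * s = 0
    · have hBs : |c| = K * |s| := by
        have : c = -(K * s) := by linarith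
        rw [this, abs_neg, abs_mul, abs_of_pos (by linarith : 0 < K)]
      obtain ⟨hs1, hc1⟩ := small_of hK700 hBs (by linarith : c ^ 2 + s ^ 2 = 1)
      have hLC : ∀ᶠ p in 𝓝 (F x), G1 p = G1 (F x) ∧ G2 p = G2 (F x) := by
        rw [hFx]
        refine LC_of ?_ ?_
        · right
          show 9 / 8 < |8 * (x * c)|
          rw [abs_mul, abs_mul, abs_of_pos (by norm_num : (0 : ℝ) < 8)]
          nlinarith [abs_nonneg c, abs_nonneg x]
        · left
          show |2 * (x * s)| < 7 / 8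
          rw [abs_mul, abs_mul, abs_two]
          nlinarith [abs_nonneg s, abs_nonneg x]
      have r1 : Reach x 1 := by
        rw [← e1]; exact hreach 1 0 (by rw [one_mul, zero_mul, zero_add]; exact hA)
      have r2 : Reach x (1 + I) := by
        rw [← e3]; exact hreach 1 1 (by rw [one_mul, one_mul, hB, zero_add]; exact hA)
      refine NTL_of_loc hLC r1 r2 fun l a b => eq_zero_of a ?_
      rw [map_add, a, zero_add] at b
      exact b
    · refine NTL_of_axes ?_ ?_
      · rw [← e1]; exact hreach 1 0 (by rw [one_mul, zero_mul, zero_add]; exact hA)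
      · rw [← e2]; exact hreach 0 1 (by rw [one_mul, zero_mul, add_zero]; exact hB)

/-- no tangent line at the terminal points -/
theorem NTL_term {z : ℂ} (h0 : 0 ≤ z.im) (h : Term z) : NTL z := by
  rcases h0.lt_or_eq with h1 | h1
  · exact NTL_interior h1 h
  · obtain ⟨x, rfl⟩ : ∃ x : ℝ, z = x := ⟨z.re, Complex.ext rfl (by simp [← h1])⟩
    by_cases h2 : 1 ≤ |x|
    · exact NTL_outer h2
    · by_cases h3 : 99 / 100 < |x|
      · exact NTL_spiral h3 (not_le.1 h2)
      · exact NTL_rot h (not_lt.1 h3)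

end Pool.Agent.Lib.MP_4d0de2_an
end

section

/-!
# No tangent lines at any point
-/

namespace Pool.Agent.Lib.MP_4d0de2_an

open Filter Topology Set Complex

theorem norm_F_le_three {w : ℂ} (h : ‖w‖ ≤ 1) : ‖F w‖ ≤ 3 := (norm_F_le h).trans (by norm_num)

theorem NTL_child (d : Bool) {w : ℂ} (hw : ‖w‖ < 1) (h : NTL w) :
    NTL ((sg d / 2 : ℝ) + w / 4) := by
  intro a b c ha hb hc l hl
  set l' : ℂ →L[ℝ] ℝ := l.comp (ContinuousLinearMap.mul ℝ ℂ I) with hl'
  have hap : ∀ v, l' v = l (I * v) := fun v => rfl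
  have h1 : Small (a / 4) (c / 2) b w l' := by
    intro η hη
    have ht : Tendsto (fun v : ℂ => ((sg d / 2 : ℝ) : ℂ) + v / 4) (𝓝[Up] w)
        (𝓝[Up] (((sg d / 2 : ℝ) : ℂ) + w / 4)) := by
      refine tendsto_nhdsWithin_of_tendsto_nhds_of_eventually_within _ ?_ ?_
      · exact ((continuous_const.add (continuous_id.div_const 4)).tendsto w).mono_left
          nhdsWithin_le_nhds
      · filter_upwards [self_mem_nhdsWithin] with v hv
        have hv' : 0 ≤ v.im := hv
        show 0 ≤ (((sg d / 2 : ℝ) : ℂ) + v / 4).im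
        have h4 : (v / 4).im = v.im / 4 := by simp
        rw [Complex.add_im, Complex.ofReal_im, h4]
        linarith
    have hn : ∀ᶠ v : ℂ in 𝓝[Up] w, ‖v‖ < 1 :=
      mem_nhdsWithin_of_mem_nhds ((isOpen_lt continuous_norm continuous_const).mem_nhds hw)
    filter_upwards [ht.eventually (hl η hη), hn] with v hv hv1
    rw [F_child d hv1.le, F_child d hw.le, Lw_rho a b c d (norm_F_le_three hv1.le)
      (norm_F_le_three hw.le), norm_mul, norm_I, one_mul] at hv
    rw [hap]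
    exact hv
  have h2 := h (a / 4) (c / 2) b (by linarith) (by linarith) hb l' h1
  ext v
  have h3 : l v = l' (-I * v) := by
    rw [hap]
    congr 1
    linear_combination v * Complex.I_mul_I
  rw [h3, h2]
  simp

/-- the next point of the expansion -/
noncomputable def nxt (z : ℂ) : ℂ := open Classical in
  if ‖z - 1 / 2‖ < 1 / 4 then 4 * z - 2 else 4 * z + 2

/-- the first digit -/
noncomputable def dgt (z : ℂ) : Bool := open Classical in decide (‖z - 1 / 2‖ < 1 / 4)

theorem nxt_im (z : ℂ) : (nxt z).im = 4 * z.im := by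
  unfold nxt
  split_ifs <;> simp

theorem eq_child {z : ℂ} (h : ¬Term z) :
    z = ((sg (dgt z) / 2 : ℝ) : ℂ) + nxt z / 4 ∧ ‖nxt z‖ < 1 := by
  have h4 : ‖(4 : ℂ)‖ = 4 := by simp
  by_cases h1 : ‖z - 1 / 2‖ < 1 / 4
  · have e1 : dgt z = true := by simp only [dgt, h1, decide_true]
    have e2 : nxt z = 4 * z - 2 := by simp only [nxt, if_pos h1]
    rw [e1, e2]
    refine ⟨?_, ?_⟩
    · simp only [sg]; push_cast; norm_num
      ring
    · rw [show 4 * z - 2 = 4 * (z - 1 / 2) by ring, norm_mul, h4]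
      linarith
  · have e1 : dgt z = false := by simp only [dgt, h1, decide_false]
    have e2 : nxt z = 4 * z + 2 := by simp only [nxt, if_neg h1]
    have h2 : ‖z + 1 / 2‖ < 1 / 4 := by
      by_contra h3
      exact h ⟨not_lt.1 h1, not_lt.1 h3⟩
    rw [e1, e2]
    refine ⟨?_, ?_⟩
    · simp only [sg]; push_cast; norm_num
      ring
    · rw [show 4 * z + 2 = 4 * (z + 1 / 2) by ring, norm_mul, h4]
      linarith

theorem NTL_of_iter (n : ℕ) : ∀ z : ℂ, 0 ≤ z.im → Term (nxt^[n] z) → NTL z := by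
  induction n with
  | zero => exact fun z h0 h => NTL_term h0 h
  | succ n ih =>
    intro z h0 h
    by_cases hT : Term z
    · exact NTL_term h0 hT
    · obtain ⟨h1, h2⟩ := eq_child hT
      rw [h1]
      refine NTL_child _ h2 (ih _ ?_ ?_)
      · rw [nxt_im]; linarith
      · rwa [Function.iterate_succ_apply] at h

/-- the digits of a point -/
noncomputable def dgs (z : ℂ) : ℕ → Bool := fun j => dgt (nxt^[j] z)

theorem sh_dgs (z : ℂ) : sh (dgs z) = dgs (nxt z) := by
  funext j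
  exact congrArg dgt (Function.iterate_succ_apply nxt j z)

theorem norm_sub_dgs (n : ℕ) : ∀ z : ℂ, (∀ j, ¬Term (nxt^[j] z)) →
    ‖z - mm (dgs z)‖ ≤ 2 * (1 / 4) ^ n := by
  induction n with
  | zero =>
    intro z h
    have h1 : ‖z‖ ≤ 3 / 4 := by
      have h0 : ¬Term z := h 0
      refine norm_le_of_near ?_
      by_contra h2
      rw [not_or, not_le, not_le] at h2
      exact h0 ⟨h2.1.le, h2.2.le⟩
    have h2 := norm_sub_le z (mm (dgs z))
    have h3 := abs_mm_le (dgs z)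
    rw [norm_real'] at h2
    rw [pow_zero]
    linarith
  | succ n ih =>
    intro z h
    have h0 : ¬Term z := h 0
    have h1 := ih (nxt z) fun j => by
      rw [← Function.iterate_succ_apply]
      exact h (j + 1)
    have e : z - mm (dgs z) = (nxt z - mm (dgs (nxt z))) / 4 := by
      have e1 := (eq_child h0).1
      have e2 : ((mm (dgs z) : ℝ) : ℂ) = ((sg (dgt z) / 2 : ℝ) : ℂ) + (mm (dgs (nxt z)) : ℂ) / 4 := by
        rw [mm_succ (dgs z), sh_dgs]
        push_cast
        rfl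
      rw [e2]
      nth_rewrite 1 [e1]
      ring
    have h4 : ‖(4 : ℂ)‖ = 4 := by simp
    rw [e, norm_div, h4, pow_succ]
    linarith

theorem eq_mm_of {z : ℂ} (h : ∀ j, ¬Term (nxt^[j] z)) : z = mm (dgs z) := by
  have ht : Tendsto (fun n : ℕ => 2 * (1 / 4 : ℝ) ^ n) atTop (𝓝 0) := by
    have := (tendsto_pow_atTop_nhds_zero_of_lt_one (r := (1 / 4 : ℝ)) (by norm_num)
      (by norm_num)).const_mul 2
    simpa using this
  have h0 : ‖z - mm (dgs z)‖ ≤ 0 := ge_of_tendsto' ht fun n => norm_sub_dgs n z h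
  exact sub_eq_zero.1 (norm_eq_zero.1 (le_antisymm h0 (norm_nonneg _)))

/-! ### The dust -/

theorem iter_weights (k : ℕ) : ∀ (s : ℕ → Bool) (a b c : ℝ), 0 < a → 0 < b → b ≤ c → c ≤ 2 * b →
    ∃ a' b' c' : ℝ, 0 < a' ∧ 0 < b' ∧ b' ≤ c' ∧ c' ≤ 2 * b' ∧ ∀ p q : ℂ, ‖p‖ ≤ 3 → ‖q‖ ≤ 3 →
      Lw a b c (ck s k + (I / 4) ^ k * p) - Lw a b c (ck s k + (I / 4) ^ k * q) =
        I ^ k * (Lw a' b' c' p - Lw a' b' c' q) := by
  induction k with
  | zero =>
    intro s a b c ha hb hbc hcb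
    exact ⟨a, b, c, ha, hb, hbc, hcb, fun p q _ _ => by simp [ck]⟩
  | succ k ih =>
    intro s a b c ha hb hbc hcb
    obtain ⟨a', b', c', ha', hb', hbc', hcb', H⟩ := ih (sh s) (a / 4) (c / 2) b (by linarith)
      (by linarith) (by linarith) (by linarith)
    refine ⟨a', b', c', ha', hb', hbc', hcb', fun p q hp hq => ?_⟩
    have e : ∀ p : ℂ, ck s (k + 1) + (I / 4) ^ (k + 1) * p =
        I * ((sg (s 0) / 2 : ℝ) + (ck (sh s) k + (I / 4) ^ k * p) / 4) := by
      intro p
      rw [ck, pow_succ]; ring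
    rw [e p, e q, Lw_rho _ _ _ _ (norm_ck_add_le _ _ hp) (norm_ck_add_le _ _ hq), H p q hp hq,
      pow_succ]
    ring

theorem G_one : G1 1 = 1 ∧ G2 1 = 1 / 2 := by
  constructor
  · unfold G1; rw [Complex.one_re]; exact g_of_ge (by norm_num)
  · unfold G2; rw [Complex.one_im]; exact g_mid (by norm_num)

theorem G_neg_one : G1 (-1) = 0 ∧ G2 (-1) = 1 / 2 := by
  constructor
  · unfold G1; rw [Complex.neg_re, Complex.one_re]; exact g_of_le (by norm_num)
  · unfold G2; rw [Complex.neg_im, Complex.one_im]; exact g_mid (by norm_num)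

theorem norm_Lw_sub_le {a b c : ℝ} (ha : 0 ≤ a) (hb : 0 ≤ b) (hc : 0 ≤ c) (p q : ℂ) :
    ‖Lw a b c p - Lw a b c q‖ ≤ a * ‖p - q‖ + (b + c) := by
  have e : Lw a b c p - Lw a b c q = a * (p - q) + ((b * (G1 p - G1 q) : ℝ) +
      ((c * (G2 p - G2 q) : ℝ) : ℂ) * I) := by
    apply Complex.ext
    · simp only [Lw, Complex.sub_re, Complex.add_re, Complex.re_ofReal_mul, Complex.ofReal_re,
        Complex.I_re]
      ring
    · simp only [Lw, Complex.sub_im, Complex.add_im, Complex.im_ofReal_mul, Complex.ofReal_im,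
        Complex.I_im]
      ring
  have g1 : |G1 p - G1 q| ≤ 1 := by
    have h1 : 0 ≤ G1 p := g_nonneg _
    have h2 : G1 p ≤ 1 := g_le_one _
    have h3 : 0 ≤ G1 q := g_nonneg _
    have h4 : G1 q ≤ 1 := g_le_one _
    rw [abs_le]; constructor <;> linarith
  have g2 : |G2 p - G2 q| ≤ 1 := by
    have h1 : 0 ≤ G2 p := g_nonneg _
    have h2 : G2 p ≤ 1 := g_le_one _
    have h3 : 0 ≤ G2 q := g_nonneg _
    have h4 : G2 q ≤ 1 := g_le_one _
    rw [abs_le]; constructor <;> linarith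
  rw [e]
  refine (norm_add_le _ _).trans (add_le_add ?_ ?_)
  · rw [norm_mul, norm_real', abs_of_nonneg ha]
  · refine (norm_add_le _ _).trans (add_le_add ?_ ?_)
    · rw [norm_real', abs_mul, abs_of_nonneg hb]
      nlinarith
    · rw [norm_mul, norm_I, mul_one, norm_real', abs_mul, abs_of_nonneg hc]
      nlinarith

theorem dust_bound {s : ℕ → Bool} {l : ℂ →L[ℝ] ℝ} (h : Small 1 1 1 (mm s) l) {η : ℝ}
    (hη : 0 < η) : ∀ᶠ k : ℕ in atTop, |l (I ^ k)| ≤ 6 * η := by
  obtain ⟨ε, hε, H⟩ := small_metric h hη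
  have ht : Tendsto (fun k : ℕ => (2 : ℝ) * (1 / 4) ^ k) atTop (𝓝 0) := by
    have := (tendsto_pow_atTop_nhds_zero_of_lt_one (r := (1 / 4 : ℝ)) (by norm_num)
      (by norm_num)).const_mul 2
    simpa using this
  filter_upwards [(tendsto_order.1 ht).2 ε hε] with k hk
  obtain ⟨a, b, c, ha, hb, hbc, hcb, HL⟩ := iter_weights k s 1 1 1 one_pos one_pos le_rfl
    (by norm_num)
  set κ := kk (sh^[k] s) with hκ
  have hκ3 : ‖κ‖ ≤ 2 / 3 := norm_kk_le _
  have hFmm : F (mm s) = ck s k + (I / 4) ^ k * κ := by rw [F_mm, kk_eq s k]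
  have h4k : (0 : ℝ) < 4 ^ k := by positivity
  -- the two test points
  have key : ∀ w : ℂ, w.im = 0 → ‖w‖ = 1 →
      |l (I ^ k * (Lw a b c w - Lw a b c κ))| ≤ η * (3 * (2 * a + b)) := by
    intro w hw0 hw1
    have hFw : F w = w := F_of_ge hw1.ge
    have e1 : F ((mk s k : ℂ) + w / 4 ^ k) = ck s k + (I / 4) ^ k * w := by
      rw [F_mk_add s k hw1.le, hFw]
    have h5 : ‖(mk s k : ℂ) + w / 4 ^ k - mm s‖ < ε := by
      have e2 : (mk s k : ℂ) + w / 4 ^ k - mm s = (w - mm (sh^[k] s)) / 4 ^ k := by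
        rw [mm_eq s k]; push_cast; ring
      have h4n : ‖(4 : ℂ) ^ k‖ = 4 ^ k := by rw [norm_pow]; norm_num
      rw [e2, norm_div, h4n]
      have h6 := norm_sub_le w (mm (sh^[k] s))
      rw [norm_real'] at h6
      have h7 := abs_mm_le (sh^[k] s)
      refine lt_of_le_of_lt ?_ hk
      rw [div_le_iff₀ h4k, mul_assoc, ← mul_pow]
      norm_num
      linarith
    have h6 : 0 ≤ ((mk s k : ℂ) + w / 4 ^ k).im := by
      have e3 : (w / 4 ^ k).im = 0 := by
        have e4 : w = (w.re : ℝ) := Complex.ext rfl (by simp [hw0])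
        have e5 : w / 4 ^ k = ((w.re / 4 ^ k : ℝ) : ℂ) := by
          nth_rewrite 1 [e4]; push_cast; rfl
        rw [e5, Complex.ofReal_im]
      rw [Complex.add_im, Complex.ofReal_im, e3, add_zero]
    have h7 := H _ h5 h6
    rw [e1, hFmm, HL w κ (by rw [hw1]; norm_num) (hκ3.trans (by norm_num))] at h7
    refine h7.trans (mul_le_mul_of_nonneg_left ?_ hη.le)
    rw [norm_mul, norm_pow, norm_I, one_pow, one_mul]
    refine (norm_Lw_sub_le ha.le hb.le (by linarith) _ _).trans ?_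
    have h8 := norm_sub_le w κ
    rw [hw1] at h8
    nlinarith
  have k1 := key 1 (by simp) (by simp)
  have k2 := key (-1) (by simp) (by simp)
  have e : Lw a b c 1 - Lw a b c κ - (Lw a b c (-1) - Lw a b c κ) = ((2 * a + b : ℝ) : ℂ) := by
    apply Complex.ext
    · simp only [Lw, Complex.sub_re, Complex.ofReal_re, G_one.1, G_neg_one.1, Complex.neg_re,
        Complex.one_re]
      ring
    · simp only [Lw, Complex.sub_im, Complex.ofReal_im, G_one.2, G_neg_one.2, Complex.neg_im,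
        Complex.one_im]
      ring
  have e2 : l (I ^ k * (Lw a b c 1 - Lw a b c κ)) - l (I ^ k * (Lw a b c (-1) - Lw a b c κ)) =
      (2 * a + b) * l (I ^ k) := by
    rw [← map_sub, ← mul_sub, e]
    have : I ^ k * ((2 * a + b : ℝ) : ℂ) = (2 * a + b) • I ^ k := by
      rw [Complex.real_smul, mul_comm]
    rw [this, map_smul, smul_eq_mul]
  have h3 : (2 * a + b) * |l (I ^ k)| ≤ η * (3 * (2 * a + b)) + η * (3 * (2 * a + b)) := by
    rw [← abs_of_pos (by linarith : 0 < 2 * a + b), ← abs_mul, ← e2,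
      abs_of_pos (by linarith : 0 < 2 * a + b)]
    exact (abs_sub _ _).trans (add_le_add k1 k2)
  have h4 : 0 < 2 * a + b := by linarith
  have h5 : (2 * a + b) * |l (I ^ k)| ≤ (2 * a + b) * (6 * η) := by
    refine h3.trans (le_of_eq ?_); ring
  exact le_of_mul_le_mul_left h5 h4

theorem dust_zero {s : ℕ → Bool} {l : ℂ →L[ℝ] ℝ} (h : Small 1 1 1 (mm s) l) : l = 0 := by
  have h1 : ∀ η > 0, |l 1| ≤ 6 * η := by
    intro η hη
    obtain ⟨N, hN⟩ := eventually_atTop.1 (dust_bound h hη)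
    have := hN (4 * N) (by omega)
    rwa [pow_mul, Complex.I_pow_four, one_pow] at this
  have h2 : ∀ η > 0, |l I| ≤ 6 * η := by
    intro η hη
    obtain ⟨N, hN⟩ := eventually_atTop.1 (dust_bound h hη)
    have := hN (4 * N + 1) (by omega)
    rwa [pow_succ, pow_mul, Complex.I_pow_four, one_pow, one_mul] at this
  have h3 : ∀ x : ℝ, (∀ η > 0, |x| ≤ 6 * η) → x = 0 := by
    intro x hx
    by_contra h0
    have h4 : 0 < |x| := abs_pos.2 h0
    have := hx (|x| / 12) (by positivity)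
    linarith
  exact eq_zero_of (h3 _ h1) (h3 _ h2)

/-- no tangent line at any point of the closed half plane -/
theorem small_zero {z : ℂ} (h0 : 0 ≤ z.im) {l : ℂ →L[ℝ] ℝ} (h : Small 1 1 1 z l) : l = 0 := by
  by_cases hT : ∃ n, Term (nxt^[n] z)
  · obtain ⟨n, hn⟩ := hT
    exact NTL_of_iter n z h0 hn 1 1 1 one_pos zero_le_one zero_le_one l h
  · push Not at hT
    have h1 := eq_mm_of hT
    rw [h1] at h
    exact dust_zero h

end Pool.Agent.Lib.MP_4d0de2_an
end

section

/-!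
# Uniqueness of the tangent plane
-/

namespace Pool.Agent.Lib.MP_4d0de2_an

open Filter Topology Set Complex

theorem abs_inner_le_angle {n w x : E3} (hw : w ≠ 0) (h : inner ℝ n w = 0) :
    |inner ℝ n x| ≤ ‖n‖ * (‖x‖ * InnerProductGeometry.angle x w) := by
  have hwp : 0 < ‖w‖ := norm_pos_iff.2 hw
  set c : ℝ := inner ℝ x w / ‖w‖ ^ 2 with hc
  have h1 : inner ℝ n x = inner ℝ n (x - c • w) := by
    rw [inner_sub_right, inner_smul_right, h, mul_zero, sub_zero]
  have h2 : ‖x - c • w‖ ^ 2 * ‖w‖ ^ 2 = ‖x‖ ^ 2 * ‖w‖ ^ 2 - inner ℝ x w ^ 2 := by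
    rw [norm_sub_sq_real, inner_smul_right, norm_smul, Real.norm_eq_abs, mul_pow, sq_abs, hc]
    field_simp
    ring
  have h3 := InnerProductGeometry.sin_angle_mul_norm_mul_norm x w
  have h4 : ‖x - c • w‖ * ‖w‖ = Real.sin (InnerProductGeometry.angle x w) * (‖x‖ * ‖w‖) := by
    rw [h3, real_inner_self_eq_norm_sq, real_inner_self_eq_norm_sq, ← sq,
      ← Real.sqrt_sq (mul_nonneg (norm_nonneg (x - c • w)) hwp.le), mul_pow, h2]
  have h5 : ‖x - c • w‖ = ‖x‖ * Real.sin (InnerProductGeometry.angle x w) := by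
    have : ‖x - c • w‖ * ‖w‖ = (‖x‖ * Real.sin (InnerProductGeometry.angle x w)) * ‖w‖ := by
      rw [h4]; ring
    exact mul_right_cancel₀ hwp.ne' this
  have h6 : Real.sin (InnerProductGeometry.angle x w) ≤ InnerProductGeometry.angle x w :=
    Real.sin_le (InnerProductGeometry.angle_nonneg x w)
  rw [h1]
  refine (abs_real_inner_le_norm _ _).trans (mul_le_mul_of_nonneg_left ?_ (norm_nonneg n))
  rw [h5]
  exact mul_le_mul_of_nonneg_left h6 (norm_nonneg x)

/-- lift of the half plane to one of the sheets -/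
noncomputable def lft (u : ℝ × ℝ) (z : ℂ) : ℝ × ℝ := (z.re, (if 0 ≤ u.2 then 1 else -1) * z.im)

theorem continuous_lft (u : ℝ × ℝ) : Continuous (lft u) :=
  Complex.continuous_re.prodMk (continuous_const.mul Complex.continuous_im)

theorem lft_fd (u : ℝ × ℝ) : lft u (fd u) = u := by
  refine Prod.ext rfl ?_
  simp only [lft, fd_im]
  split_ifs with h
  · rw [one_mul, abs_of_nonneg h]
  · rw [abs_of_neg (not_le.1 h)]; ring

theorem fd_lft (u : ℝ × ℝ) {z : ℂ} (hz : 0 ≤ z.im) : fd (lft u z) = z := by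
  apply Complex.ext
  · rfl
  · rw [fd_im]
    simp only [lft]
    split_ifs
    · rw [one_mul, abs_of_nonneg hz]
    · rw [neg_one_mul, abs_neg, abs_of_nonneg hz]

theorem Lw_F_sub (z z' : ℂ) : Lw 1 1 1 (F z') - Lw 1 1 1 (F z) = Th z' - Th z := by
  rw [Lw_one, Lw_one]; rfl

/-- every tangent plane is the graph plane -/
theorem tangent_unique (u : ℝ × ℝ) {W : Submodule ℝ E3} (hW : Module.finrank ℝ W = 2)
    (h : ∀ ε > 0, ∃ r > 0, ∀ q ∈ X '' univ, q ≠ X u → dist q (X u) < r →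
      ∃ w ∈ W, w ≠ 0 ∧ InnerProductGeometry.angle (q - X u) w < ε) :
    W = LinearMap.range (gr (slope u)) := by
  refine (Submodule.eq_of_le_of_finrank_eq ?_ ?_).symm
  · rintro _ ⟨v, rfl⟩
    rw [← Submodule.orthogonal_orthogonal W, Submodule.mem_orthogonal]
    intro n hn
    -- the functional
    set m : ℂ →L[ℝ] ℝ := LinearMap.toContinuousLinearMap
      ((innerSL ℝ n : E3 →L[ℝ] ℝ).toLinearMap.comp (gr (slope u))) with hm
    have hmap : ∀ v, m v = inner ℝ n (gr (slope u) v) := fun v => rfl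
    rw [← hmap v]
    have hz0 : 0 ≤ (fd u).im := by rw [fd_im]; exact abs_nonneg _
    suffices hS : Small 1 1 1 (fd u) m by rw [small_zero hz0 hS]; rfl
    intro η hη
    set A : ℝ := ‖n‖ * (2 + ‖slope u‖) + ‖n‖ + 1 with hA
    have hn0 := norm_nonneg n
    have hA0 : 0 < A := by positivity
    have hδ0 : 0 < min 1 (η / A) := lt_min one_pos (by positivity)
    set δ := min 1 (η / A) with hδ
    have hδ1 : δ ≤ 1 := min_le_left _ _
    have hδ2 : δ * A ≤ η := by
      have := min_le_right 1 (η / A)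
      rw [← hδ, le_div_iff₀ hA0] at this
      exact this
    obtain ⟨r1, hr1, H1⟩ := graph_S u hδ0
    obtain ⟨r2, hr2, H2⟩ := h δ hδ0
    have hcont : Tendsto (fun z' : ℂ => X (lft u z')) (𝓝[Up] (fd u)) (𝓝 (X u)) := by
      have := (continuous_X.comp (continuous_lft u)).tendsto (fd u)
      rw [Function.comp_apply, lft_fd] at this
      exact this.mono_left nhdsWithin_le_nhds
    have hev := Metric.tendsto_nhds.1 hcont (min r1 r2) (lt_min hr1 hr2)
    filter_upwards [hev, self_mem_nhdsWithin] with z' hd hz'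
    have hfd : fd (lft u z') = z' := fd_lft u hz'
    have hXz : X (lft u z') = emb (Th z') (sht (lft u z')) := by rw [X, hfd]
    have hXu : X u = emb (Th (fd u)) (sht u) := rfl
    rw [Lw_F_sub]
    set v := Th z' - Th (fd u) with hv
    set t := sht (lft u z') - sht u with ht
    have hdiff : X (lft u z') - X u = emb v t := by rw [hXz, hXu, emb_sub]
    have k1 : |t - slope u v| ≤ δ * ‖v‖ := by
      have := H1 (Th z') (sht (lft u z')) (by rw [← hXz]; exact mem_image_of_mem _ (mem_univ _))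
        (by rw [← hXz, ← dist_eq_norm]; exact hd.trans_le (min_le_left _ _))
      exact this
    have k2 : |inner ℝ n (emb v t)| ≤ ‖n‖ * (‖emb v t‖ * δ) := by
      by_cases hne : X (lft u z') = X u
      · have h0 : emb v t = 0 := by rw [← hdiff, hne, sub_self]
        rw [h0]; simp
      · obtain ⟨w, hwW, hw0, hang⟩ := H2 _ (mem_image_of_mem _ (mem_univ _)) hne
          (hd.trans_le (min_le_right _ _))
        rw [hdiff] at hang
        have h0 : inner ℝ n w = 0 := by
          rw [real_inner_comm]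
          exact Submodule.inner_right_of_mem_orthogonal hwW hn
        refine (abs_inner_le_angle hw0 h0).trans ?_
        exact mul_le_mul_of_nonneg_left (mul_le_mul_of_nonneg_left hang.le (norm_nonneg _)) hn0
    have k3 : ‖emb v t‖ ≤ ‖v‖ * (2 + ‖slope u‖) := by
      refine (norm_emb_le _ _).trans ?_
      have h5 : |t| ≤ |t - slope u v| + |slope u v| := by
        have := abs_add_le (t - slope u v) (slope u v)
        rwa [sub_add_cancel] at this
      have h6 : |slope u v| ≤ ‖slope u‖ * ‖v‖ := (slope u).le_opNorm v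
      have h7 : δ * ‖v‖ ≤ 1 * ‖v‖ := mul_le_mul_of_nonneg_right hδ1 (norm_nonneg _)
      linarith
    have k4 : m v = inner ℝ n (emb v t) - inner ℝ n (emb 0 (t - slope u v)) := by
      rw [hmap, gr_apply, ← inner_sub_right, emb_sub, sub_zero, sub_sub_cancel]
    have k5 : |inner ℝ n (emb 0 (t - slope u v))| ≤ ‖n‖ * (δ * ‖v‖) := by
      refine (abs_real_inner_le_norm _ _).trans (mul_le_mul_of_nonneg_left ?_ hn0)
      refine (norm_emb_le _ _).trans ?_
      rw [norm_zero, zero_add]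
      exact k1
    have k6 : ‖n‖ * (‖emb v t‖ * δ) ≤ ‖n‖ * (‖v‖ * (2 + ‖slope u‖) * δ) :=
      mul_le_mul_of_nonneg_left (mul_le_mul_of_nonneg_right k3 hδ0.le) hn0
    rw [k4]
    refine (abs_sub _ _).trans ?_
    have k7 : δ * A * ‖v‖ ≤ η * ‖v‖ := mul_le_mul_of_nonneg_right hδ2 (norm_nonneg _)
    have k8 : 0 ≤ δ * ‖v‖ := by positivity
    have k9 : δ * A * ‖v‖ = ‖n‖ * (‖v‖ * (2 + ‖slope u‖) * δ) + ‖n‖ * (δ * ‖v‖) + δ * ‖v‖ := by
      rw [hA]; ring
    linarith
  · rw [finrank_gr, hW]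

end Pool.Agent.Lib.MP_4d0de2_an
end
end

section

section

/-!
# Pinching points
-/

namespace Pool.Agent.Lib.MP_4d0de2_an

open Filter Topology Set Complex

/-- the turning function -/
noncomputable def psi (z : ℂ) : ℝ := min ‖z‖ 1 * arg z + ang ‖z‖ - 2 * Real.pi

theorem continuousOn_psi : ContinuousOn psi {z : ℂ | 0 ≤ z.im} := by
  have h1 : ContinuousOn (fun z : ℂ => min ‖z‖ 1 * arg z) {z : ℂ | 0 ≤ z.im} := by
    intro z hz
    by_cases h0 : z = 0
    · subst h0
      have hsq : Tendsto (fun z : ℂ => min ‖z‖ 1 * arg z) (𝓝 0) (𝓝 0) := by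
        refine squeeze_zero_norm (a := fun z : ℂ => ‖z‖ * Real.pi) (fun z => ?_) ?_
        · rw [norm_mul, Real.norm_eq_abs, Real.norm_eq_abs,
            abs_of_nonneg (le_min (norm_nonneg z) zero_le_one)]
          exact mul_le_mul (min_le_left _ _) (abs_arg_le_pi z) (abs_nonneg _) (norm_nonneg _)
        · have := (continuous_norm (E := ℂ)).tendsto 0
          rw [norm_zero] at this
          have h2 := this.mul_const Real.pi
          rwa [zero_mul] at h2
      have : ContinuousAt (fun z : ℂ => min ‖z‖ 1 * arg z) 0 := by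
        have e0 : min ‖(0 : ℂ)‖ 1 * arg 0 = 0 := by
          rw [norm_zero, min_eq_left zero_le_one, zero_mul]
        have e1 : Tendsto (fun z : ℂ => min ‖z‖ 1 * arg z) (𝓝 0) (𝓝 (min ‖(0 : ℂ)‖ 1 * arg 0)) := by
          rw [e0]; exact hsq
        exact e1
      exact this.continuousWithinAt
    · have h2 : ContinuousWithinAt (fun z : ℂ => min ‖z‖ 1) {z : ℂ | 0 ≤ z.im} z :=
        (continuous_norm.min continuous_const).continuousWithinAt
      have h3 : ContinuousWithinAt arg {z : ℂ | 0 ≤ z.im} z := by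
        by_cases hs : z ∈ slitPlane
        · exact (continuousAt_arg hs).continuousWithinAt
        · rw [mem_slitPlane_iff, not_or, not_lt, not_not] at hs
          refine continuousWithinAt_arg_of_re_neg_of_im_zero (lt_of_le_of_ne hs.1 ?_) hs.2
          intro h4
          exact h0 (Complex.ext h4 hs.2)
      exact h2.mul h3
  unfold psi
  exact (h1.add (continuous_ang.comp continuous_norm).continuousOn).sub continuousOn_const

theorem exists_near_one {z : ℂ} (h0 : 0 ≤ z.im) (h : psi z = 0) : ‖z‖ ≤ 1 ∧ ‖F z - 1‖ ≤ 1 / 20 := by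
  have harg0 : 0 ≤ arg z := arg_nonneg_iff.2 h0
  have harg1 := arg_le_pi z
  have hpi := Real.pi_pos
  have hlt : ‖z‖ < 1 := by
    by_contra hge
    push Not at hge
    rw [psi, ang_of_ge hge, min_eq_right hge] at h
    linarith
  have hgt : 99 / 100 < ‖z‖ := by
    by_contra hle
    push Not at hle
    rw [psi, ang_of_le hle] at h
    have := mul_nonneg (le_min (norm_nonneg z) zero_le_one) harg0
    linarith
  refine ⟨hlt.le, ?_⟩
  have hn2 : ‖(1 / 2 : ℂ)‖ = 1 / 2 := by norm_num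
  have hF : F z = tw z := by
    refine F_mid ?_ ?_
    · have := norm_sub_norm_le z (1 / 2)
      linarith
    · have := norm_sub_norm_le z (-(1 / 2))
      rw [norm_neg, sub_neg_eq_add] at this
      linarith
  rw [psi, min_eq_left hlt.le] at h
  set r := ‖z‖ with hr
  have e1 : tw z = r * exp (I * ((1 - r) * arg z : ℝ)) := by
    unfold tw
    nth_rewrite 1 [← norm_mul_exp_arg_mul_I z]
    rw [← hr, mul_assoc, ← Complex.exp_add]
    have e2 : (arg z : ℂ) * I + (ang r : ℂ) * I =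
        I * ((1 - r) * arg z : ℝ) + 2 * Real.pi * I := by
      have : ang r = 2 * Real.pi - r * arg z := by linarith
      rw [this]; push_cast; ring
    rw [e2, Complex.exp_add, Complex.exp_two_pi_mul_I, mul_one]
  rw [hF, e1]
  have e3 : (r : ℂ) * exp (I * ((1 - r) * arg z : ℝ)) - 1 =
      ((r - 1 : ℝ) : ℂ) * exp (I * ((1 - r) * arg z : ℝ)) + (exp (I * ((1 - r) * arg z : ℝ)) - 1) := by
    push_cast; ring
  rw [e3]
  refine (norm_add_le _ _).trans ?_
  have e4 : ‖exp (I * ((1 - r) * arg z : ℝ))‖ = 1 := by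
    rw [mul_comm, Complex.norm_exp_ofReal_mul_I]
  rw [norm_mul, e4, mul_one, Complex.norm_real, Real.norm_eq_abs, abs_of_neg (by linarith)]
  have e5 := Real.norm_exp_I_mul_ofReal_sub_one_le (x := (1 - r) * arg z)
  rw [Real.norm_eq_abs, abs_of_nonneg (mul_nonneg (by linarith) harg0)] at e5
  have e6 : (1 - r) * arg z ≤ (1 / 100) * Real.pi :=
    mul_le_mul (by linarith) harg1 harg0 (by norm_num)
  have e7 := Real.pi_lt_d2
  linarith

theorem cross {z : ℝ → ℂ} {b : ℝ} (hb : 0 ≤ b) (hc : ContinuousOn z (Icc 0 b))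
    (him : ∀ t, 0 ≤ (z t).im) (h0 : ‖z 0‖ ≤ 2 / 3) (h1 : 1 ≤ ‖z b‖) :
    ∃ t ∈ Icc 0 b, ‖z t‖ ≤ 1 ∧ ‖F (z t) - 1‖ ≤ 1 / 20 := by
  have hpi := Real.pi_pos
  have hc' : ContinuousOn (fun t => psi (z t)) (Icc 0 b) :=
    continuousOn_psi.comp hc fun t _ => him t
  have ha : 0 ≤ psi (z 0) := by
    rw [psi, ang_of_le (by linarith)]
    have := mul_nonneg (le_min (norm_nonneg (z 0)) zero_le_one) (arg_nonneg_iff.2 (him 0))
    linarith
  have hb' : psi (z b) ≤ 0 := by
    rw [psi, ang_of_ge h1, min_eq_right h1]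
    have := arg_le_pi (z b)
    linarith
  obtain ⟨t, ht, h⟩ := intermediate_value_Icc' hb hc' ⟨hb', ha⟩
  exact ⟨t, ht, exists_near_one (him t) h⟩

/-- the pinching points of the plane -/
noncomputable def Pk (s : ℕ → Bool) (k : ℕ) : ℂ := L (ck s k + (I / 4) ^ k)

theorem norm_I_div_pow (k : ℕ) : ‖(I / 4 : ℂ) ^ k‖ = (1 / 4 : ℝ) ^ k := by
  rw [norm_pow, norm_div, norm_I]; norm_num

theorem pinch_pos (s : ℕ → Bool) (k : ℕ) {γ : ℝ → ℝ × ℝ} {b : ℝ} (hb : 0 ≤ b)
    (hc : ContinuousOn γ (Icc 0 b)) (h0 : γ 0 = (mm s, 0))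
    (h1 : 1 ≤ 4 ^ k * ‖fd (γ b) - mk s k‖) :
    ∃ t ∈ Icc 0 b, ‖Th (fd (γ t)) - Pk s k‖ ≤ (1 / 4) ^ k / 20 := by
  have h4 : (0 : ℝ) < 4 ^ k := by positivity
  have hn4 : ‖(4 : ℂ) ^ k‖ = 4 ^ k := by rw [norm_pow]; norm_num
  have hfd0 : fd (γ 0) = mm s := by
    rw [h0, fd_eq]; simp
  have hz0 : (4 : ℂ) ^ k * (fd (γ 0) - mk s k) = mm (sh^[k] s) := by
    rw [hfd0, mm_eq s k]
    push_cast
    field_simp
    ring
  obtain ⟨t, ht, h2, h3⟩ := cross (z := fun t => (4 : ℂ) ^ k * (fd (γ t) - mk s k)) hb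
    (continuousOn_const.mul ((continuous_fd.comp_continuousOn hc).sub continuousOn_const))
    (fun t => by
      have e : ((4 : ℂ) ^ k * (fd (γ t) - mk s k)).im = 4 ^ k * |(γ t).2| := by
        have : ((4 : ℂ) ^ k) = ((4 ^ k : ℝ) : ℂ) := by push_cast; rfl
        rw [this, Complex.im_ofReal_mul, Complex.sub_im, fd_im, Complex.ofReal_im, sub_zero]
      rw [e]; positivity)
    (by
      rw [hz0, Complex.norm_real, Real.norm_eq_abs]
      exact abs_mm_le _)
    (by
      rw [norm_mul, hn4]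
      exact h1)
  refine ⟨t, ht, ?_⟩
  set w := (4 : ℂ) ^ k * (fd (γ t) - mk s k) with hw
  have e1 : fd (γ t) = (mk s k : ℂ) + w / 4 ^ k := by
    rw [hw]; field_simp; ring
  have e2 : F (fd (γ t)) = ck s k + (I / 4) ^ k * F w := by
    rw [e1, F_mk_add s k h2]
  have e3 := G_const s k (p := F w) (q := 1) h3 (by simp)
  rw [mul_one] at e3
  have e4 : Th (fd (γ t)) - Pk s k = (I / 4) ^ k * (F w - 1) := by
    unfold Th Pk L
    rw [e2, e3.1, e3.2]
    ring
  rw [e4, norm_mul, norm_I_div_pow]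
  have : (0 : ℝ) < (1 / 4) ^ k := by positivity
  nlinarith

theorem Th_mm (s : ℕ → Bool) : Th (mm s) = L (kk s) := by rw [Th, F_mm]

theorem X_mm (s : ℕ → Bool) : X (mm s, 0) = emb (L (kk s)) 0 := by
  have h1 : fd (mm s, 0) = mm s := by rw [fd_eq]; simp
  have h2 : sht (mm s, 0) = 0 := by
    rw [← abs_eq_zero, abs_sht, ht_Th_eq_zero_iff, fd_im]
    simp
  rw [X, h1, h2, Th_mm]

theorem Pk_sub_ge (s : ℕ → Bool) (k : ℕ) : 5 / 6 * (1 / 4) ^ k ≤ ‖Pk s k - L (kk s)‖ := by
  refine le_trans ?_ (norm_sub_le_L _ _)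
  have e : ck s k + (I / 4) ^ k - kk s = (I / 4) ^ k * (1 - kk (sh^[k] s)) := by
    rw [kk_eq s k]; ring
  rw [e, norm_mul, norm_I_div_pow, mul_comm]
  refine mul_le_mul_of_nonneg_left ?_ (by positivity)
  have h1 := abs_re_kk_le (sh^[k] s)
  have h2 := Complex.abs_re_le_norm (1 - kk (sh^[k] s))
  rw [Complex.sub_re, Complex.one_re] at h2
  have h3 := (abs_le.1 h1).2
  have h4 := (le_abs_self _).trans h2
  linarith

theorem tendsto_Pk (s : ℕ → Bool) : Tendsto (fun k => ‖Pk s k - L (kk s)‖) atTop (𝓝 0) := by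
  have h1 : Tendsto (fun k => ck s k + (I / 4) ^ k) atTop (𝓝 (kk s)) := by
    rw [tendsto_iff_norm_sub_tendsto_zero]
    refine squeeze_zero (g := fun k => (1 / 4 : ℝ) ^ k * (5 / 3)) (fun k => norm_nonneg _)
      (fun k => ?_) ?_
    · have e : ck s k + (I / 4) ^ k - kk s = (I / 4) ^ k * (1 - kk (sh^[k] s)) := by
        rw [kk_eq s k]; ring
      rw [e, norm_mul, norm_I_div_pow]
      refine mul_le_mul_of_nonneg_left ?_ (by positivity)
      have h1 := norm_sub_le 1 (kk (sh^[k] s))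
      rw [norm_one] at h1
      have h2 := norm_kk_le (sh^[k] s)
      linarith
    · have := (tendsto_pow_atTop_nhds_zero_of_lt_one (r := (1 / 4 : ℝ)) (by norm_num)
        (by norm_num)).mul_const (5 / 3)
      simpa using this
  have h2 := (continuous_L.tendsto (kk s)).comp h1
  have h3 := tendsto_iff_norm_sub_tendsto_zero.1 h2
  exact h3

/-- all curves leaving the point pass near the pinching points -/
theorem pinch (s : ℕ → Bool) : ∀ᶠ k in atTop, ∀ (γ : ℝ → ℝ × ℝ) (b : ℝ), 0 ≤ b →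
    ContinuousOn γ (Icc 0 b) → γ 0 = (mm s, 0) → 1 ≤ 4 ^ k * ‖fd (γ b) - mk s k‖ →
    ∃ t ∈ Icc 0 b, ‖X (γ t) - emb (Pk s k) 0‖ ≤ ‖emb (Pk s k) 0 - X (mm s, 0)‖ / 4 := by
  have hz : ht (L (kk s)) = 0 := by
    rw [← Th_mm, ht_Th_eq_zero_iff]; simp
  obtain ⟨r, hr, H⟩ := ht_little hz (η := 1 / 10) (by norm_num)
  filter_upwards [(tendsto_order.1 (tendsto_Pk s)).2 (r / 2) (by linarith)] with k hk
  intro γ b hb hc h0 h1
  obtain ⟨t, ht1, h2⟩ := pinch_pos s k hb hc h0 h1
  refine ⟨t, ht1, ?_⟩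
  have h3 := Pk_sub_ge s k
  set d := ‖Pk s k - L (kk s)‖ with hd
  have h4 : ‖emb (Pk s k) 0 - X (mm s, 0)‖ = d := by
    rw [X_mm, emb_sub, sub_zero, norm_emb_zero]
  have h5 : ‖Th (fd (γ t)) - L (kk s)‖ ≤ 106 / 100 * d := by
    have := norm_sub_le_norm_sub_add_norm_sub (Th (fd (γ t))) (Pk s k) (L (kk s))
    rw [← hd] at this
    linarith
  have hd0 : 0 ≤ d := norm_nonneg _
  have h6 := H (Th (fd (γ t))) (by linarith)
  rw [h4, X, emb_sub, sub_zero]
  refine (norm_emb_le _ _).trans ?_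
  rw [abs_sht]
  linarith

theorem far (s : ℕ → Bool) {z : ℂ} (hz : z ≠ mm s) : ∀ᶠ k : ℕ in atTop,
    1 ≤ 4 ^ k * ‖z - mk s k‖ := by
  have hd : 0 < ‖z - mm s‖ := norm_pos_iff.2 (sub_ne_zero.2 hz)
  have h1 : Tendsto (fun k : ℕ => (4 : ℝ) ^ k) atTop atTop :=
    tendsto_pow_atTop_atTop_of_one_lt (by norm_num)
  filter_upwards [h1.eventually_ge_atTop (2 / ‖z - mm s‖)] with k hk
  rw [div_le_iff₀ hd] at hk
  have h4 : (0 : ℝ) < 4 ^ k := by positivity
  have e : z - mk s k = (z - mm s) + ((mm (sh^[k] s) / 4 ^ k : ℝ) : ℂ) := by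
    rw [mm_eq s k]; push_cast; ring
  have h2 := norm_sub_norm_le (z - mm s) (-((mm (sh^[k] s) / 4 ^ k : ℝ) : ℂ))
  rw [sub_neg_eq_add, ← e, norm_neg, Complex.norm_real, norm_div, Real.norm_eq_abs,
    Real.norm_eq_abs, abs_of_pos h4] at h2
  have h3 := abs_mm_le (sh^[k] s)
  have h5 : 4 ^ k * (‖z - mm s‖ - |mm (sh^[k] s)| / 4 ^ k) ≤ 4 ^ k * ‖z - mk s k‖ :=
    mul_le_mul_of_nonneg_left h2 h4.le
  have h6 : 4 ^ k * (‖z - mm s‖ - |mm (sh^[k] s)| / 4 ^ k) =
      4 ^ k * ‖z - mm s‖ - |mm (sh^[k] s)| := by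
    field_simp
  linarith

theorem fd_ne {s : ℕ → Bool} {u : ℝ × ℝ} (h : u ≠ (mm s, 0)) : fd u ≠ mm s := by
  intro h1
  apply h
  have h2 := congrArg Complex.re h1
  have h3 := congrArg Complex.im h1
  rw [fd_re, Complex.ofReal_re] at h2
  rw [fd_im, Complex.ofReal_im, abs_eq_zero] at h3
  exact Prod.ext h2 h3

/-- along every curve the derivative at a pinched point vanishes -/
theorem deriv_zero {s : ℕ → Bool} {γ : ℝ → ℝ × ℝ} {c r : ℝ} (hr : 0 < r)
    (hc : ContinuousOn γ (Ioo (c - r) (c + r))) (hi : InjOn γ (Ioo (c - r) (c + r)))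
    (h0 : γ c = (mm s, 0)) {v : E3} (hv : HasDerivAt (fun t => X (γ t)) v c) : v = 0 := by
  by_contra hv0
  have hvp : 0 < ‖v‖ := norm_pos_iff.2 hv0
  have h1 := (hasDerivAt_iff_isLittleO.1 hv).def (c := ‖v‖ / 4) (by positivity)
  obtain ⟨r1, hr1, H⟩ := Metric.eventually_nhds_iff.1 h1
  set b := min (r / 2) (r1 / 2) with hb
  have hb0 : 0 < b := lt_min (by linarith) (by linarith)
  have hb1 : b < r := (min_le_left _ _).trans_lt (by linarith)
  have hb2 : b < r1 := (min_le_right _ _).trans_lt (by linarith)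
  have hcm : c ∈ Ioo (c - r) (c + r) := ⟨by linarith, by linarith⟩
  have hne1 : fd (γ (c + b)) ≠ mm s := by
    refine fd_ne fun h => ?_
    have := hi ⟨by linarith, by linarith⟩ hcm (h.trans h0.symm)
    linarith
  have hne2 : fd (γ (c - b)) ≠ mm s := by
    refine fd_ne fun h => ?_
    have := hi ⟨by linarith, by linarith⟩ hcm (h.trans h0.symm)
    linarith
  obtain ⟨k, hk0, hk1, hk2⟩ := ((pinch s).and ((far s hne1).and (far s hne2))).exists
  obtain ⟨t1, ht1, g1⟩ := hk0 (fun t => γ (c + t)) b hb0.le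
    (hc.comp (continuous_const.add continuous_id).continuousOn
      fun t ht => ⟨by linarith [ht.1], by linarith [ht.2]⟩) (by rw [add_zero]; exact h0) hk1
  obtain ⟨t2, ht2, g2⟩ := hk0 (fun t => γ (c - t)) b hb0.le
    (hc.comp (continuous_const.sub continuous_id).continuousOn
      fun t ht => ⟨by linarith [ht.2], by linarith [ht.1]⟩) (by rw [sub_zero]; exact h0) hk2
  set P := emb (Pk s k) 0
  set a := X (mm s, 0) with ha
  have hdpos : 0 < ‖P - a‖ := by
    have h4 : ‖P - a‖ = ‖Pk s k - L (kk s)‖ := by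
      rw [ha, X_mm, emb_sub, sub_zero, norm_emb_zero]
    rw [h4]
    refine lt_of_lt_of_le ?_ (Pk_sub_ge s k)
    positivity
  have k1 := H (y := c + t1) (by
    rw [dist_eq_norm, add_sub_cancel_left, Real.norm_eq_abs, abs_of_nonneg ht1.1]
    linarith [ht1.2])
  have k2 := H (y := c - t2) (by
    rw [dist_eq_norm, Real.norm_eq_abs, show c - t2 - c = -t2 by ring, abs_neg,
      abs_of_nonneg ht2.1]
    linarith [ht2.2])
  rw [h0, ← ha, add_sub_cancel_left, Real.norm_eq_abs, abs_of_nonneg ht1.1] at k1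
  rw [h0, ← ha, show c - t2 - c = -t2 by ring, Real.norm_eq_abs, abs_neg,
    abs_of_nonneg ht2.1] at k2
  set x1 := X (γ (c + t1))
  set x2 := X (γ (c - t2))
  -- distances
  have l1 : 3 / 4 * ‖P - a‖ ≤ ‖x1 - a‖ := by
    have := norm_sub_le_norm_sub_add_norm_sub P x1 a
    rw [norm_sub_rev P x1] at this
    linarith
  have l2 : 3 / 4 * ‖P - a‖ ≤ ‖x2 - a‖ := by
    have := norm_sub_le_norm_sub_add_norm_sub P x2 a
    rw [norm_sub_rev P x2] at this
    linarith
  have l3 : ‖x1 - x2‖ ≤ ‖P - a‖ / 2 := by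
    have := norm_sub_le_norm_sub_add_norm_sub x1 P x2
    rw [norm_sub_rev P x2] at this
    linarith
  have m1 : ‖x1 - a‖ ≤ 5 / 4 * ‖v‖ * t1 := by
    have := norm_add_le (x1 - a - t1 • v) (t1 • v)
    rw [sub_add_cancel, norm_smul, Real.norm_eq_abs, abs_of_nonneg ht1.1] at this
    linarith
  have m2 : ‖x2 - a‖ ≤ 5 / 4 * ‖v‖ * t2 := by
    have := norm_add_le (x2 - a - (-t2) • v) ((-t2) • v)
    rw [sub_add_cancel, norm_smul, Real.norm_eq_abs, abs_neg, abs_of_nonneg ht2.1] at this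
    linarith
  have m3 : 3 / 4 * ‖v‖ * (t1 + t2) ≤ ‖x1 - x2‖ := by
    have e : (t1 + t2) • v = (x1 - x2) - (x1 - a - t1 • v) + (x2 - a - (-t2) • v) := by
      rw [neg_smul, add_smul]; abel
    have := norm_add_le ((x1 - x2) - (x1 - a - t1 • v)) (x2 - a - (-t2) • v)
    rw [← e, norm_smul, Real.norm_eq_abs, abs_of_nonneg (add_nonneg ht1.1 ht2.1)] at this
    have h5 := norm_sub_le (x1 - x2) (x1 - a - t1 • v)
    linarith
  linarith

end Pool.Agent.Lib.MP_4d0de2_an
end

section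

/-!
# The pinched points have positive area
-/

namespace Pool.Agent.Lib.MP_4d0de2_an

open Filter Topology Set Complex MeasureTheory Measure

/-- the pinched points -/
def Dust : Set E3 := {x | ∃ s : ℕ → Bool, x = emb (L (kk s)) 0}

/-- the code of a point of the space -/
noncomputable def code (x : E3) : Fin 2 → ℝ :=
  ![G1 (Function.invFun L ⟨x 0, x 1⟩), G2 (Function.invFun L ⟨x 0, x 1⟩)]

theorem code_emb (p : ℂ) (z : ℝ) : code (emb (L p) z) = ![G1 p, G2 p] := by
  have h : (⟨emb (L p) z 0, emb (L p) z 1⟩ : ℂ) = L p := rfl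
  rw [code, h, Function.leftInverse_invFun L_injective]

theorem code_lipschitz : LipschitzOnWith 1 code Dust := by
  refine LipschitzOnWith.of_dist_le_mul ?_
  rintro _ ⟨s, rfl⟩ _ ⟨t, rfl⟩
  rw [code_emb, code_emb, NNReal.coe_one, one_mul, dist_eq_norm, dist_eq_norm, emb_sub, sub_zero,
    norm_emb_zero, pi_norm_le_iff_of_nonneg (norm_nonneg _)]
  intro i
  fin_cases i
  · exact abs_G1_sub_le _ _
  · exact abs_G2_sub_le _ _

theorem Icc_subset_code : Icc (0 : Fin 2 → ℝ) 1 ⊆ code '' Dust := by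
  intro f hf
  obtain ⟨s, h1, h2⟩ := G_surj (u := f 0) (v := f 1) ⟨hf.1 0, hf.2 0⟩ ⟨hf.1 1, hf.2 1⟩
  refine ⟨_, ⟨s, rfl⟩, ?_⟩
  rw [code_emb, h1, h2]
  ext i
  fin_cases i <;> rfl

theorem area_pos : 0 < μH[2] Dust := by
  have h1 := code_lipschitz.hausdorffMeasure_image_le (d := 2) (by norm_num)
  have h2 : (μH[2] : Measure (Fin 2 → ℝ)) = volume := by
    have := hausdorffMeasure_pi_real (ι := Fin 2)
    rwa [Fintype.card_fin, Nat.cast_ofNat] at this
  have h3 : volume (Icc (0 : Fin 2 → ℝ) 1) = 1 := by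
    rw [Real.volume_Icc_pi]
    simp
  have h4 : (1 : ENNReal) ≤ μH[2] (code '' Dust) := by
    rw [h2, ← h3]
    exact measure_mono Icc_subset_code
  have h5 := h4.trans h1
  have h6 : (1 : ENNReal) ≤ μH[2] Dust := by simpa using h5
  exact lt_of_lt_of_le zero_lt_one h6

end Pool.Agent.Lib.MP_4d0de2_an
end
end
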