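import Mathlib

/-!
# A Cantor type staircase function

`g : ℝ → ℝ` is continuous, nondecreasing, `0` on `(-∞,-2]`, `1` on `[2,∞)`, satisfies
`g (-x) = 1 - g x` and `g x = (g (16 x + 16) + g (16 x - 16)) / 2`.
-/

namespace Pool.Agent.Lib.MP_4d0de2_an

open Filter Topology Set

/-- approximations of the staircase -/
noncomputable def gn : ℕ → ℝ → ℝ
  | 0 => fun x => min 1 (max 0 ((x + 2) / 4))
  | (n + 1) => fun x => (gn n (16 * x + 16) + gn n (16 * x - 16)) / 2

theorem continuous_gn (n : ℕ) : Continuous (gn n) := by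
  induction n with
  | zero => simp only [gn]; fun_prop
  | succ n ih =>
    simp only [gn]
    exact ((ih.comp (by fun_prop)).add (ih.comp (by fun_prop))).div_const 2

theorem monotone_gn (n : ℕ) : Monotone (gn n) := by
  induction n with
  | zero =>
    intro x y hxy
    simp only [gn]
    exact min_le_min le_rfl (max_le_max le_rfl (by linarith))
  | succ n ih =>
    intro x y hxy
    simp only [gn]
    have h1 : gn n (16 * x + 16) ≤ gn n (16 * y + 16) := ih (by linarith)
    have h2 : gn n (16 * x - 16) ≤ gn n (16 * y - 16) := ih (by linarith)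
    linarith

theorem gn_of_le (n : ℕ) {x : ℝ} (h : x ≤ -2) : gn n x = 0 := by
  induction n generalizing x with
  | zero =>
    simp only [gn]
    rw [max_eq_left (by linarith), min_eq_right zero_le_one]
  | succ n ih =>
    simp only [gn]
    rw [ih (by linarith), ih (by linarith)]; norm_num

theorem gn_of_ge (n : ℕ) {x : ℝ} (h : 2 ≤ x) : gn n x = 1 := by
  induction n generalizing x with
  | zero =>
    simp only [gn]
    rw [min_eq_left]
    exact le_max_of_le_right (by linarith)
  | succ n ih =>
    simp only [gn]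
    rw [ih (by linarith), ih (by linarith)]; norm_num

theorem gn_neg (n : ℕ) (x : ℝ) : gn n (-x) = 1 - gn n x := by
  induction n generalizing x with
  | zero =>
    simp only [gn]
    rcases le_total x (-2) with h | h
    · rw [max_eq_left (show (x + 2) / 4 ≤ 0 by linarith), min_eq_right zero_le_one,
        max_eq_right (show 0 ≤ (-x + 2) / 4 by linarith), min_eq_left (by linarith)]; norm_num
    · rcases le_total x 2 with h' | h'
      · rw [max_eq_right (show 0 ≤ (x + 2) / 4 by linarith),
          min_eq_right (show (x + 2) / 4 ≤ 1 by linarith),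
          max_eq_right (show 0 ≤ (-x + 2) / 4 by linarith), min_eq_right (by linarith)]; ring
      · rw [max_eq_right (show 0 ≤ (x + 2) / 4 by linarith),
          min_eq_left (show 1 ≤ (x + 2) / 4 by linarith),
          max_eq_left (show (-x + 2) / 4 ≤ 0 by linarith), min_eq_right zero_le_one]; norm_num
  | succ n ih =>
    simp only [gn]
    have e1 : 16 * -x + 16 = -(16 * x - 16) := by ring
    have e2 : 16 * -x - 16 = -(16 * x + 16) := by ring
    rw [e1, e2, ih, ih]; ring

theorem gn_nonneg (n : ℕ) (x : ℝ) : 0 ≤ gn n x := by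
  have h1 : gn n (min x (-2)) ≤ gn n x := monotone_gn n (min_le_left _ _)
  rwa [gn_of_le n (min_le_right _ _)] at h1

theorem gn_le_one (n : ℕ) (x : ℝ) : gn n x ≤ 1 := by
  have h1 : gn n x ≤ gn n (max x 2) := monotone_gn n (le_max_left _ _)
  rwa [gn_of_ge n (le_max_right _ _)] at h1

theorem abs_gn_sub_le (n : ℕ) (x : ℝ) : |gn (n + 1) x - gn n x| ≤ (1 / 2) ^ n := by
  induction n generalizing x with
  | zero =>
    have h1 := gn_nonneg 1 x
    have h2 := gn_le_one 1 x
    have h3 := gn_nonneg 0 x
    have h4 := gn_le_one 0 x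
    rw [pow_zero, abs_le]
    constructor <;> simp only [zero_add] <;> linarith
  | succ n ih =>
    have e : gn (n + 1 + 1) x - gn (n + 1) x =
        ((gn (n + 1) (16 * x + 16) - gn n (16 * x + 16)) +
        (gn (n + 1) (16 * x - 16) - gn n (16 * x - 16))) / 2 := by
      simp only [gn]; ring
    rw [e, abs_div, abs_two, pow_succ]
    rcases le_total (16 * x + 16) 2 with h | h
    · rw [gn_of_le (n + 1) (show 16 * x - 16 ≤ -2 by linarith),
        gn_of_le n (show 16 * x - 16 ≤ -2 by linarith), sub_zero, add_zero]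
      have := ih (16 * x + 16)
      linarith
    · rw [gn_of_ge (n + 1) h, gn_of_ge n h, sub_self, zero_add]
      have := ih (16 * x - 16)
      linarith

theorem dist_gn_le (x : ℝ) (n : ℕ) : dist (gn n x) (gn (n + 1) x) ≤ 1 * (1 / 2) ^ n := by
  rw [dist_comm, Real.dist_eq, one_mul]
  exact abs_gn_sub_le n x

theorem exists_limit_gn (x : ℝ) : ∃ d, Tendsto (fun n => gn n x) atTop (𝓝 d) :=
  cauchySeq_tendsto_of_complete
    (cauchySeq_of_le_geometric (1 / 2) 1 (by norm_num) (dist_gn_le x))

/-- the staircase function -/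
noncomputable def g (x : ℝ) : ℝ := (exists_limit_gn x).choose

theorem tendsto_gn (x : ℝ) : Tendsto (fun n => gn n x) atTop (𝓝 (g x)) :=
  (exists_limit_gn x).choose_spec

theorem continuous_g : Continuous g := by
  have h : TendstoUniformly (fun n x => gn n x) g atTop := by
    rw [Metric.tendstoUniformly_iff]
    intro ε hε
    have ht : Tendsto (fun n : ℕ => 1 * (1 / 2 : ℝ) ^ n / (1 - 1 / 2)) atTop (𝓝 0) := by
      have := ((tendsto_pow_atTop_nhds_zero_of_lt_one (r := (1 / 2 : ℝ)) (by norm_num)
        (by norm_num)).const_mul 1).div_const (1 - 1 / 2)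
      simpa using this
    filter_upwards [ht.eventually (gt_mem_nhds hε)] with n hn x
    rw [dist_comm]
    exact (dist_le_of_le_geometric_of_tendsto (1 / 2) 1 (by norm_num) (dist_gn_le x)
      (tendsto_gn x) n).trans_lt hn
  exact h.continuous (Frequently.of_forall fun n => continuous_gn n)

theorem monotone_g : Monotone g := by
  intro x y hxy
  exact le_of_tendsto_of_tendsto' (tendsto_gn x) (tendsto_gn y) fun n => monotone_gn n hxy

theorem g_of_le {x : ℝ} (h : x ≤ -2) : g x = 0 := by
  have h1 := tendsto_gn x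
  simp_rw [gn_of_le _ h] at h1
  exact tendsto_nhds_unique h1 tendsto_const_nhds

theorem g_of_ge {x : ℝ} (h : 2 ≤ x) : g x = 1 := by
  have h1 := tendsto_gn x
  simp_rw [gn_of_ge _ h] at h1
  exact tendsto_nhds_unique h1 tendsto_const_nhds

theorem g_neg (x : ℝ) : g (-x) = 1 - g x := by
  have h1 := tendsto_gn (-x)
  simp_rw [gn_neg] at h1
  exact tendsto_nhds_unique h1 ((tendsto_gn x).const_sub 1)

theorem g_eq (x : ℝ) : g x = (g (16 * x + 16) + g (16 * x - 16)) / 2 := by
  have h1 : Tendsto (fun n => gn (n + 1) x) atTop (𝓝 (g x)) :=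
    (tendsto_add_atTop_iff_nat 1).2 (tendsto_gn x)
  exact tendsto_nhds_unique h1 (((tendsto_gn _).add (tendsto_gn _)).div_const 2)

theorem g_nonneg (x : ℝ) : 0 ≤ g x := ge_of_tendsto' (tendsto_gn x) fun n => gn_nonneg n x

theorem g_le_one (x : ℝ) : g x ≤ 1 := le_of_tendsto' (tendsto_gn x) fun n => gn_le_one n x

theorem g_right {y : ℝ} (h : |y| ≤ 30) : g (1 + y / 16) = 1 / 2 + g y / 2 := by
  rw [abs_le] at h
  rw [g_eq]
  have e1 : 16 * (1 + y / 16) + 16 = 32 + y := by ring
  have e2 : 16 * (1 + y / 16) - 16 = y := by ring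
  rw [e1, e2, g_of_ge (by linarith)]
  ring

theorem g_left {y : ℝ} (h : |y| ≤ 30) : g (-1 + y / 16) = g y / 2 := by
  rw [abs_le] at h
  rw [g_eq]
  have e1 : 16 * (-1 + y / 16) + 16 = y := by ring
  have e2 : 16 * (-1 + y / 16) - 16 = y - 32 := by ring
  rw [e1, e2, g_of_le (x := y - 32) (by linarith)]
  ring

theorem g_mid {x : ℝ} (h : |x| ≤ 7 / 8) : g x = 1 / 2 := by
  rw [abs_le] at h
  rw [g_eq, g_of_ge (by linarith), g_of_le (by linarith)]
  norm_num

end Pool.Agent.Lib.MP_4d0de2_an
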