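import Pool.Agent.Lib.MP_4d0de2_an.Words

/-!
# The pinched double of the twisted half plane
-/

namespace Pool.Agent.Lib.MP_4d0de2_an

open Filter Topology Set Complex

/-! ### The expanding map -/

/-- the map moving the plane along its code -/
noncomputable def L (p : ℂ) : ℂ := p + ((G1 p : ℝ) + (G2 p : ℝ) * I)

theorem L_re (p : ℂ) : (L p).re = p.re + G1 p := by
  simp [L]

theorem L_im (p : ℂ) : (L p).im = p.im + G2 p := by
  simp [L]

theorem continuous_G1 : Continuous G1 :=
  continuous_g.comp (continuous_const.mul Complex.continuous_re)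

theorem continuous_G2 : Continuous G2 :=
  continuous_g.comp (continuous_const.mul Complex.continuous_im)

theorem continuous_L : Continuous L := by
  unfold L
  exact continuous_id.add ((Complex.continuous_ofReal.comp continuous_G1).add
    ((Complex.continuous_ofReal.comp continuous_G2).mul continuous_const))

theorem expand_aux {c : ℝ} (hc : 0 ≤ c) {x x' : ℝ} (h : x' ≤ x) :
    |x - x'| ≤ |x - x' + (g (c * x) - g (c * x'))| ∧
    |g (c * x) - g (c * x')| ≤ |x - x' + (g (c * x) - g (c * x'))| := by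
  have h1 : g (c * x') ≤ g (c * x) := monotone_g (mul_le_mul_of_nonneg_left h hc)
  rw [abs_of_nonneg (by linarith : 0 ≤ x - x'), abs_of_nonneg (by linarith : 0 ≤ g (c * x) - g (c * x')),
    abs_of_nonneg (by linarith : 0 ≤ x - x' + (g (c * x) - g (c * x')))]
  constructor <;> linarith

theorem expand {c : ℝ} (hc : 0 ≤ c) (x x' : ℝ) :
    |x - x'| ≤ |x - x' + (g (c * x) - g (c * x'))| ∧
    |g (c * x) - g (c * x')| ≤ |x - x' + (g (c * x) - g (c * x'))| := by
  rcases le_total x' x with h | h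
  · exact expand_aux hc h
  · have := expand_aux hc h
    rw [abs_sub_comm x x', abs_sub_comm (g (c * x)) (g (c * x')),
      show x - x' + (g (c * x) - g (c * x')) = -(x' - x + (g (c * x') - g (c * x))) by ring, abs_neg]
    exact this

theorem L_sub_re (p q : ℂ) : (L p - L q).re = p.re - q.re + (g (8 * p.re) - g (8 * q.re)) := by
  rw [Complex.sub_re, L_re, L_re, G1, G1]; ring

theorem L_sub_im (p q : ℂ) : (L p - L q).im = p.im - q.im + (g (2 * p.im) - g (2 * q.im)) := by
  rw [Complex.sub_im, L_im, L_im, G2, G2]; ring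

theorem norm_sub_le_L (p q : ℂ) : ‖p - q‖ ≤ ‖L p - L q‖ := by
  have h1 := (expand (c := 8) (by norm_num) p.re q.re).1
  have h2 := (expand (c := 2) (by norm_num) p.im q.im).1
  rw [← L_sub_re] at h1
  rw [← L_sub_im] at h2
  rw [Complex.norm_eq_sqrt_sq_add_sq, Complex.norm_eq_sqrt_sq_add_sq]
  refine Real.sqrt_le_sqrt ?_
  rw [Complex.sub_re p q, Complex.sub_im p q]
  exact add_le_add (sq_le_sq.2 h1) (sq_le_sq.2 h2)

theorem abs_G1_sub_le (p q : ℂ) : |G1 p - G1 q| ≤ ‖L p - L q‖ := by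
  have h1 := (expand (c := 8) (by norm_num) p.re q.re).2
  rw [← L_sub_re] at h1
  exact h1.trans (Complex.abs_re_le_norm _)

theorem abs_G2_sub_le (p q : ℂ) : |G2 p - G2 q| ≤ ‖L p - L q‖ := by
  have h1 := (expand (c := 2) (by norm_num) p.im q.im).2
  rw [← L_sub_im] at h1
  exact h1.trans (Complex.abs_im_le_norm _)

theorem L_injective : Function.Injective L := by
  intro p q h
  have := norm_sub_le_L p q
  rw [h, sub_self, norm_zero] at this
  exact sub_eq_zero.1 (norm_eq_zero.1 (le_antisymm this (norm_nonneg _)))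

theorem norm_L_sub_le (p : ℂ) : ‖L p - p‖ ≤ 2 := by
  have e : L p - p = (G1 p : ℝ) + (G2 p : ℝ) * I := by rw [L]; ring
  rw [e]
  have h1 := norm_add_le ((G1 p : ℝ) : ℂ) ((G2 p : ℝ) * I)
  have a1 : 0 ≤ G1 p := g_nonneg _
  have a2 : 0 ≤ G2 p := g_nonneg _
  rw [norm_mul, norm_I, mul_one, Complex.norm_real, Complex.norm_real, Real.norm_eq_abs,
    Real.norm_eq_abs, abs_of_nonneg a1, abs_of_nonneg a2] at h1
  have h2 : G1 p ≤ 1 := g_le_one _
  have h3 : G2 p ≤ 1 := g_le_one _
  linarith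

/-- the position map -/
noncomputable def Th (z : ℂ) : ℂ := L (F z)

theorem continuous_Th : Continuous Th := continuous_L.comp continuous_F

theorem Th_injective : Function.Injective Th := L_injective.comp F_injective

theorem norm_Th_sub_le (z : ℂ) : ‖Th z - z‖ ≤ 4 := by
  have h1 := norm_L_sub_le (F z)
  have h2 := norm_F_sub_le z
  have h3 := norm_add_le (L (F z) - F z) (F z - z)
  rw [sub_add_sub_cancel] at h3
  unfold Th
  linarith

theorem norm_le_Th (z : ℂ) : ‖z‖ ≤ ‖Th z‖ + 4 := by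
  have h1 := norm_Th_sub_le z
  have h2 := norm_sub_norm_le z (Th z)
  rw [norm_sub_rev] at h2
  linarith

theorem isClosedMap_Th : IsClosedMap Th := by
  refine IsProperMap.isClosedMap (isProperMap_iff_tendsto_cocompact.2 ⟨continuous_Th, ?_⟩)
  rw [← Metric.cobounded_eq_cocompact, ← tendsto_norm_atTop_iff_cobounded]
  refine tendsto_atTop_mono (f := fun z : ℂ => ‖z‖ + (-4)) (fun z => by
    have := norm_le_Th z
    linarith) ?_
  exact tendsto_atTop_add_const_right _ _ tendsto_norm_cobounded_atTop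

theorem isClosed_low : IsClosed {z : ℂ | z.im ≤ 0} :=
  isClosed_le Complex.continuous_im continuous_const

theorem isClosed_ThLow : IsClosed (Th '' {z : ℂ | z.im ≤ 0}) := isClosedMap_Th _ isClosed_low

theorem exists_ht : ∃ f : ℂ → ℝ, Function.support f = (Th '' {z : ℂ | z.im ≤ 0})ᶜ ∧
    ContDiff ℝ (1 : ℕ∞) f ∧ Set.range f ⊆ Set.Icc 0 1 :=
  isClosed_ThLow.isOpen_compl.exists_contDiff_support_eq

/-- the height -/
noncomputable def ht : ℂ → ℝ := exists_ht.choose

theorem support_ht : Function.support ht = (Th '' {z : ℂ | z.im ≤ 0})ᶜ := exists_ht.choose_spec.1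

theorem contDiff_ht : ContDiff ℝ (1 : ℕ∞) ht := exists_ht.choose_spec.2.1

theorem differentiable_ht : Differentiable ℝ ht := contDiff_ht.differentiable (by norm_num)

theorem continuous_ht : Continuous ht := contDiff_ht.continuous

theorem ht_nonneg (p : ℂ) : 0 ≤ ht p := (exists_ht.choose_spec.2.2 (mem_range_self p)).1

theorem ht_Th_eq_zero_iff (z : ℂ) : ht (Th z) = 0 ↔ z.im ≤ 0 := by
  have h : Th z ∈ Function.support ht ↔ Th z ∈ (Th '' {z : ℂ | z.im ≤ 0})ᶜ := by rw [support_ht]
  rw [Function.mem_support, mem_compl_iff] at h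
  constructor
  · intro h0
    by_contra hz
    exact (h.2 fun ⟨z', hz', e⟩ => hz (by rw [← Th_injective e]; exact hz')) h0
  · intro hz
    by_contra h0
    exact h.1 h0 ⟨z, hz, rfl⟩

theorem fderiv_ht_of_zero {p : ℂ} (h : ht p = 0) : fderiv ℝ ht p = 0 := by
  refine IsLocalMin.fderiv_eq_zero ?_
  exact Filter.Eventually.of_forall fun q => by rw [h]; exact ht_nonneg q

/-- at a zero the height is of smaller order than the distance -/
theorem ht_little {p : ℂ} (h : ht p = 0) {η : ℝ} (hη : 0 < η) :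
    ∃ r > 0, ∀ q, ‖q - p‖ < r → ht q ≤ η * ‖q - p‖ := by
  have h1 : HasFDerivAt ht (0 : ℂ →L[ℝ] ℝ) p := by
    rw [← fderiv_ht_of_zero h]
    exact differentiable_ht.differentiableAt.hasFDerivAt
  have h2 := (hasFDerivAt_iff_isLittleO.1 h1).def hη
  obtain ⟨r, hr, H⟩ := Metric.eventually_nhds_iff.1 h2
  refine ⟨r, hr, fun q hq => ?_⟩
  have h3 := H (y := q) (by rwa [dist_eq_norm])
  rw [h, zero_apply, sub_zero, sub_zero, Real.norm_eq_abs,
    abs_of_nonneg (ht_nonneg q)] at h3
  exact h3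

/-! ### Points of the space -/

/-- three dimensional Euclidean space -/
abbrev E3 := EuclideanSpace ℝ (Fin 3)

/-- the point above `p` at height `z` -/
noncomputable def emb (p : ℂ) (z : ℝ) : E3 := !₂[p.re, p.im, z]

@[simp] theorem emb_zero (p : ℂ) (z : ℝ) : emb p z 0 = p.re := rfl
@[simp] theorem emb_one (p : ℂ) (z : ℝ) : emb p z 1 = p.im := rfl
@[simp] theorem emb_two (p : ℂ) (z : ℝ) : emb p z 2 = z := rfl

theorem emb_sub (p q : ℂ) (z w : ℝ) : emb p z - emb q w = emb (p - q) (z - w) := by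
  ext i
  fin_cases i <;> simp

theorem norm_emb_sq (p : ℂ) (z : ℝ) : ‖emb p z‖ ^ 2 = ‖p‖ ^ 2 + z ^ 2 := by
  rw [EuclideanSpace.norm_sq_eq, Fin.sum_univ_three, emb_zero, emb_one, emb_two, Real.norm_eq_abs,
    Real.norm_eq_abs, Real.norm_eq_abs, sq_abs, sq_abs, sq_abs, Complex.sq_norm, Complex.normSq_apply]
  ring

theorem norm_le_emb (p : ℂ) (z : ℝ) : ‖p‖ ≤ ‖emb p z‖ := by
  refine abs_le_of_sq_le_sq' ?_ (norm_nonneg _) |>.2
  rw [norm_emb_sq]
  nlinarith [sq_nonneg z]

theorem abs_le_emb (p : ℂ) (z : ℝ) : |z| ≤ ‖emb p z‖ := by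
  refine abs_le_of_sq_le_sq ?_ (norm_nonneg _)
  rw [norm_emb_sq]
  nlinarith [sq_nonneg ‖p‖]

theorem norm_emb_le (p : ℂ) (z : ℝ) : ‖emb p z‖ ≤ ‖p‖ + |z| := by
  refine abs_le_of_sq_le_sq' ?_ (by positivity) |>.2
  rw [norm_emb_sq, ← sq_abs z]
  nlinarith [norm_nonneg p, abs_nonneg z]

theorem norm_emb_zero (p : ℂ) : ‖emb p 0‖ = ‖p‖ := by
  refine le_antisymm ?_ (norm_le_emb p 0)
  have := norm_emb_le p 0
  rwa [abs_zero, add_zero] at this

theorem continuous_emb : Continuous fun x : ℂ × ℝ => emb x.1 x.2 := by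
  unfold emb
  refine (PiLp.continuous_toLp 2 _).comp ?_
  refine continuous_pi fun i => ?_
  fin_cases i
  · exact Complex.continuous_re.comp continuous_fst
  · exact Complex.continuous_im.comp continuous_fst
  · exact continuous_snd

/-! ### The parametrization -/

/-- folding of the plane -/
noncomputable def fd (u : ℝ × ℝ) : ℂ := ⟨u.1, |u.2|⟩

theorem fd_re (u : ℝ × ℝ) : (fd u).re = u.1 := rfl
theorem fd_im (u : ℝ × ℝ) : (fd u).im = |u.2| := rfl

theorem fd_eq (u : ℝ × ℝ) : fd u = (u.1 : ℝ) + (|u.2| : ℝ) * I := by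
  apply Complex.ext <;> simp [fd]

theorem continuous_fd : Continuous fd := by
  have : fd = fun u : ℝ × ℝ => ((u.1 : ℝ) : ℂ) + ((|u.2| : ℝ) : ℂ) * I := funext fd_eq
  rw [this]
  exact (Complex.continuous_ofReal.comp continuous_fst).add
    ((Complex.continuous_ofReal.comp continuous_snd.abs).mul continuous_const)

theorem norm_le_fd (u : ℝ × ℝ) : ‖u‖ ≤ ‖fd u‖ := by
  rw [Prod.norm_def]
  refine max_le ?_ ?_
  · exact Complex.abs_re_le_norm (fd u)
  · have := Complex.abs_im_le_norm (fd u)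
    rwa [fd_im, abs_abs] at this

/-- the signed height -/
noncomputable def sht (u : ℝ × ℝ) : ℝ := if 0 ≤ u.2 then ht (Th (fd u)) else -ht (Th (fd u))

theorem abs_sht (u : ℝ × ℝ) : |sht u| = ht (Th (fd u)) := by
  unfold sht
  split_ifs
  · exact abs_of_nonneg (ht_nonneg _)
  · rw [abs_neg]; exact abs_of_nonneg (ht_nonneg _)

theorem continuous_sht : Continuous sht := by
  have h1 : Continuous fun u : ℝ × ℝ => ht (Th (fd u)) :=
    continuous_ht.comp (continuous_Th.comp continuous_fd)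
  refine Continuous.if_le h1 h1.neg continuous_const continuous_snd ?_
  intro u hu
  have h2 : ht (Th (fd u)) = 0 := (ht_Th_eq_zero_iff _).2 (by rw [fd_im, ← hu, abs_zero])
  rw [h2, neg_zero]

/-- the parametrization of the surface -/
noncomputable def X (u : ℝ × ℝ) : E3 := emb (Th (fd u)) (sht u)

theorem continuous_X : Continuous X :=
  continuous_emb.comp ((continuous_Th.comp continuous_fd).prodMk continuous_sht)

theorem emb_inj {p q : ℂ} {z w : ℝ} (h : emb p z = emb q w) : p = q ∧ z = w := by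
  refine ⟨Complex.ext ?_ ?_, ?_⟩
  · exact congrArg (fun x : E3 => x 0) h
  · exact congrArg (fun x : E3 => x 1) h
  · exact congrArg (fun x : E3 => x 2) h

theorem X_injective : Function.Injective X := by
  intro u v h
  obtain ⟨h1, h2⟩ := emb_inj h
  have h3 := Th_injective h1
  have h4 : u.1 = v.1 := congrArg Complex.re h3
  have h5 : |u.2| = |v.2| := congrArg Complex.im h3
  refine Prod.ext h4 ?_
  unfold sht at h2
  rw [h1] at h2
  by_cases hv : v.2 = 0
  · rw [hv, abs_zero, abs_eq_zero] at h5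
    rw [h5, hv]
  have hpos : 0 < |v.2| := abs_pos.2 hv
  have hne : ht (Th (fd v)) ≠ 0 := by
    rw [Ne, ht_Th_eq_zero_iff, fd_im, not_le]
    exact hpos
  by_cases h6 : 0 ≤ u.2 <;> by_cases h7 : 0 ≤ v.2
  · rwa [abs_of_nonneg h6, abs_of_nonneg h7] at h5
  · rw [if_pos h6, if_neg h7] at h2
    exact absurd (by linarith : ht (Th (fd v)) = 0) hne
  · rw [if_neg h6, if_pos h7] at h2
    exact absurd (by linarith : ht (Th (fd v)) = 0) hne
  · push Not at h6 h7
    rw [abs_of_neg h6, abs_of_neg h7] at h5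
    linarith

theorem norm_le_X (u : ℝ × ℝ) : ‖u‖ ≤ ‖X u‖ + 4 := by
  have h1 := norm_le_fd u
  have h2 := norm_le_Th (fd u)
  have h3 : ‖Th (fd u)‖ ≤ ‖X u‖ := norm_le_emb _ _
  linarith

theorem isClosedEmbedding_X : Topology.IsClosedEmbedding X := by
  refine Topology.IsClosedEmbedding.of_continuous_injective_isClosedMap continuous_X X_injective ?_
  refine IsProperMap.isClosedMap (isProperMap_iff_tendsto_cocompact.2 ⟨continuous_X, ?_⟩)
  rw [← Metric.cobounded_eq_cocompact, ← Metric.cobounded_eq_cocompact,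
    ← tendsto_norm_atTop_iff_cobounded]
  refine tendsto_atTop_mono (f := fun z : ℝ × ℝ => ‖z‖ + (-4)) (fun z => by
    have := norm_le_X z
    linarith) ?_
  exact tendsto_atTop_add_const_right _ _ tendsto_norm_cobounded_atTop

end Pool.Agent.Lib.MP_4d0de2_an
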