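import Mathlib

/-!
# The self-similar twist map `F : ℂ → ℂ`

`F = id` outside the unit disc, `F` is a twist by an angle up to `5π/2` in the region between the
two child discs `|z ∓ 1/2| ≤ 1/4` and the unit circle, and `F (s/2 + w/4) = I (s/2 + F w / 4)` for
`s = ±1`, `|w| ≤ 1`.
-/

namespace Pool.Agent.Lib.MP_4d0de2_an

open Filter Topology Set Complex

/-- the twist angle -/
noncomputable def ang (r : ℝ) : ℝ := 5 * Real.pi / 2 * min 1 (max 0 (100 * (1 - r)))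

theorem continuous_ang : Continuous ang := by
  unfold ang
  fun_prop

theorem ang_nonneg (r : ℝ) : 0 ≤ ang r := by
  unfold ang
  have := Real.pi_pos
  have h : 0 ≤ min 1 (max 0 (100 * (1 - r))) := le_min zero_le_one (le_max_left _ _)
  positivity

theorem ang_le (r : ℝ) : ang r ≤ 5 * Real.pi / 2 := by
  unfold ang
  have := Real.pi_pos
  have h : min 1 (max 0 (100 * (1 - r))) ≤ 1 := min_le_left _ _
  nlinarith

theorem ang_of_ge {r : ℝ} (h : 1 ≤ r) : ang r = 0 := by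
  unfold ang
  rw [max_eq_left (by linarith), min_eq_right zero_le_one, mul_zero]

theorem ang_of_le {r : ℝ} (h : r ≤ 99 / 100) : ang r = 5 * Real.pi / 2 := by
  unfold ang
  rw [min_eq_left, mul_one]
  exact le_max_of_le_right (by linarith)

/-- the twist map -/
noncomputable def tw (z : ℂ) : ℂ := z * exp (ang ‖z‖ * I)

theorem continuous_tw : Continuous tw := by
  unfold tw
  have := continuous_ang
  fun_prop

theorem norm_tw (z : ℂ) : ‖tw z‖ = ‖z‖ := by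
  unfold tw
  rw [norm_mul, norm_exp_ofReal_mul_I, mul_one]

theorem tw_of_ge {z : ℂ} (h : 1 ≤ ‖z‖) : tw z = z := by
  unfold tw
  rw [ang_of_ge h]; simp

theorem exp_five_pi_half : exp ((5 * Real.pi / 2 : ℝ) * I) = I := by
  have h : ((5 * Real.pi / 2 : ℝ) : ℂ) * I = (Real.pi / 2 : ℂ) * I + 2 * Real.pi * I := by
    push_cast; ring
  rw [h, exp_add, exp_two_pi_mul_I, mul_one, exp_mul_I]
  rw [← ofReal_ofNat, ← ofReal_div, ← ofReal_cos, ← ofReal_sin, Real.cos_pi_div_two,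
    Real.sin_pi_div_two]
  simp

theorem tw_of_le {z : ℂ} (h : ‖z‖ ≤ 99 / 100) : tw z = I * z := by
  unfold tw
  rw [ang_of_le h, exp_five_pi_half, mul_comm]

theorem tw_injective : Function.Injective tw := by
  intro z w h
  have h1 : ‖z‖ = ‖w‖ := by rw [← norm_tw z, ← norm_tw w, h]
  unfold tw at h
  rw [h1] at h
  exact mul_right_cancel₀ (exp_ne_zero _) h

/-- the displacement approximations -/
noncomputable def Dn : ℕ → ℂ → ℂ
  | 0 => fun _ => 0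
  | (n + 1) => fun z => tw (z + Dn n (4 * z - 2) / 4 + Dn n (4 * z + 2) / 4) - z

theorem continuous_Dn (n : ℕ) : Continuous (Dn n) := by
  induction n with
  | zero => exact continuous_const
  | succ n ih =>
    have h1 : Continuous fun z : ℂ => Dn n (4 * z - 2) := ih.comp (by fun_prop)
    have h2 : Continuous fun z : ℂ => Dn n (4 * z + 2) := ih.comp (by fun_prop)
    have h3 : Continuous fun z : ℂ => z + Dn n (4 * z - 2) / 4 + Dn n (4 * z + 2) / 4 :=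
      (continuous_id.add (h1.div_const 4)).add (h2.div_const 4)
    exact (continuous_tw.comp h3).sub continuous_id

/-- far from `1/2` the argument `4z-2` is outside the unit disc -/
theorem norm_sub_ge {z : ℂ} (h : 1 / 4 ≤ ‖z - 1 / 2‖) : 1 ≤ ‖4 * z - 2‖ := by
  have e : 4 * z - 2 = 4 * (z - 1 / 2) := by ring
  rw [e, norm_mul]
  norm_num
  linarith

theorem norm_add_ge {z : ℂ} (h : 1 / 4 ≤ ‖z + 1 / 2‖) : 1 ≤ ‖4 * z + 2‖ := by
  have e : 4 * z + 2 = 4 * (z + 1 / 2) := by ring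
  rw [e, norm_mul]
  norm_num
  linarith

theorem far_of_near {z : ℂ} (h : ‖z - 1 / 2‖ ≤ 1 / 4) : 1 / 4 ≤ ‖z + 1 / 2‖ := by
  have e : (1 : ℂ) = (z + 1 / 2) - (z - 1 / 2) := by ring
  have h1 : (1 : ℝ) ≤ ‖z + 1 / 2‖ + ‖z - 1 / 2‖ := by
    calc (1 : ℝ) = ‖(1 : ℂ)‖ := by simp
      _ = ‖(z + 1 / 2) - (z - 1 / 2)‖ := by rw [← e]
      _ ≤ _ := norm_sub_le _ _
  linarith

theorem far_of_near' {z : ℂ} (h : ‖z + 1 / 2‖ ≤ 1 / 4) : 1 / 4 ≤ ‖z - 1 / 2‖ := by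
  have e : (1 : ℂ) = (z + 1 / 2) - (z - 1 / 2) := by ring
  have h1 : (1 : ℝ) ≤ ‖z + 1 / 2‖ + ‖z - 1 / 2‖ := by
    calc (1 : ℝ) = ‖(1 : ℂ)‖ := by simp
      _ = ‖(z + 1 / 2) - (z - 1 / 2)‖ := by rw [← e]
      _ ≤ _ := norm_sub_le _ _
  linarith

theorem norm_ge_of_ge_one {z : ℂ} (h : 1 ≤ ‖z‖) : 1 / 4 ≤ ‖z - 1 / 2‖ ∧ 1 / 4 ≤ ‖z + 1 / 2‖ := by
  have h2 : ‖(1 / 2 : ℂ)‖ = 1 / 2 := by simp
  constructor
  · have := norm_sub_norm_le z (1 / 2)
    rw [h2] at this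
    linarith
  · have := norm_sub_le (z + 1 / 2) (1 / 2)
    rw [h2, add_sub_cancel_right] at this
    linarith

theorem Dn_of_ge (n : ℕ) {z : ℂ} (h : 1 ≤ ‖z‖) : Dn n z = 0 := by
  induction n generalizing z with
  | zero => rfl
  | succ n ih =>
    obtain ⟨h1, h2⟩ := norm_ge_of_ge_one h
    simp only [Dn]
    rw [ih (norm_sub_ge h1), ih (norm_add_ge h2), zero_div, add_zero, add_zero, tw_of_ge h,
      sub_self]

theorem norm_half_add {w : ℂ} (hw : ‖w‖ ≤ 1) : ‖(1 / 2 : ℂ) + w / 4‖ ≤ 3 / 4 := by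
  have h1 := norm_add_le (1 / 2 : ℂ) (w / 4)
  have h2 : ‖(1 / 2 : ℂ)‖ = 1 / 2 := by simp
  have h3 : ‖w / 4‖ = ‖w‖ / 4 := by simp
  rw [h2, h3] at h1
  linarith

theorem norm_half_sub {w : ℂ} (hw : ‖w‖ ≤ 1) : ‖-(1 / 2 : ℂ) + w / 4‖ ≤ 3 / 4 := by
  have h1 := norm_add_le (-(1 / 2) : ℂ) (w / 4)
  have h2 : ‖(-(1 / 2) : ℂ)‖ = 1 / 2 := by simp
  have h3 : ‖w / 4‖ = ‖w‖ / 4 := by simp
  rw [h2, h3] at h1
  linarith

/-- the three cases for the position of `z` -/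
theorem cases3 (z : ℂ) : (∃ w, ‖w‖ ≤ 1 ∧ z = 1 / 2 + w / 4) ∨ (∃ w, ‖w‖ ≤ 1 ∧ z = -(1 / 2) + w / 4) ∨
    (1 / 4 ≤ ‖z - 1 / 2‖ ∧ 1 / 4 ≤ ‖z + 1 / 2‖) := by
  by_cases h1 : ‖z - 1 / 2‖ ≤ 1 / 4
  · left
    refine ⟨4 * (z - 1 / 2), ?_, by ring⟩
    rw [norm_mul]; norm_num; linarith
  by_cases h2 : ‖z + 1 / 2‖ ≤ 1 / 4
  · right; left
    refine ⟨4 * (z + 1 / 2), ?_, by ring⟩
    rw [norm_mul]; norm_num; linarith
  · right; right
    push Not at h1 h2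
    exact ⟨h1.le, h2.le⟩

/-- generic computation of the step in the right child disc -/
theorem step_right {D : ℂ → ℂ} (hD : ∀ z, 1 ≤ ‖z‖ → D z = 0) {w : ℂ} (hw : ‖w‖ ≤ 1) :
    (1 / 2 + w / 4 : ℂ) + D (4 * (1 / 2 + w / 4) - 2) / 4 + D (4 * (1 / 2 + w / 4) + 2) / 4 =
      1 / 2 + (w + D w) / 4 := by
  have h1 : (4 * (1 / 2 + w / 4) - 2 : ℂ) = w := by ring
  have h2 : D (4 * (1 / 2 + w / 4) + 2) = 0 := by
    apply hD
    apply norm_add_ge
    apply far_of_near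
    have : (1 / 2 + w / 4 - 1 / 2 : ℂ) = w / 4 := by ring
    rw [this]
    simp; linarith
  rw [h1, h2]; ring

theorem step_left {D : ℂ → ℂ} (hD : ∀ z, 1 ≤ ‖z‖ → D z = 0) {w : ℂ} (hw : ‖w‖ ≤ 1) :
    (-(1 / 2) + w / 4 : ℂ) + D (4 * (-(1 / 2) + w / 4) - 2) / 4 +
      D (4 * (-(1 / 2) + w / 4) + 2) / 4 = -(1 / 2) + (w + D w) / 4 := by
  have h1 : (4 * (-(1 / 2) + w / 4) + 2 : ℂ) = w := by ring
  have h2 : D (4 * (-(1 / 2) + w / 4) - 2) = 0 := by
    apply hD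
    apply norm_sub_ge
    apply far_of_near'
    have : (-(1 / 2) + w / 4 + 1 / 2 : ℂ) = w / 4 := by ring
    rw [this]
    simp; linarith
  rw [h1, h2]; ring

theorem step_mid {D : ℂ → ℂ} (hD : ∀ z, 1 ≤ ‖z‖ → D z = 0) {z : ℂ}
    (h1 : 1 / 4 ≤ ‖z - 1 / 2‖) (h2 : 1 / 4 ≤ ‖z + 1 / 2‖) :
    z + D (4 * z - 2) / 4 + D (4 * z + 2) / 4 = z := by
  rw [hD _ (norm_sub_ge h1), hD _ (norm_add_ge h2)]; ring

theorem norm_add_Dn_le (n : ℕ) {z : ℂ} (h : ‖z‖ ≤ 1) : ‖z + Dn n z‖ ≤ 1 := by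
  induction n generalizing z with
  | zero => simpa [Dn] using h
  | succ n ih =>
    simp only [Dn]
    rw [add_sub_cancel, norm_tw]
    rcases cases3 z with ⟨w, hw, rfl⟩ | ⟨w, hw, rfl⟩ | ⟨h1, h2⟩
    · rw [step_right (fun z hz => Dn_of_ge n hz) hw]
      exact (norm_half_add (ih hw)).trans (by norm_num)
    · rw [step_left (fun z hz => Dn_of_ge n hz) hw]
      exact (norm_half_sub (ih hw)).trans (by norm_num)
    · rw [step_mid (fun z hz => Dn_of_ge n hz) h1 h2]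
      exact h

theorem norm_Dn_sub_le (n : ℕ) (z : ℂ) : ‖Dn (n + 1) z - Dn n z‖ ≤ 2 * (1 / 4) ^ n := by
  induction n generalizing z with
  | zero =>
    simp only [pow_zero, mul_one]
    by_cases h : 1 ≤ ‖z‖
    · rw [Dn_of_ge _ h, Dn_of_ge _ h]; simp
    · push Not at h
      have h1 := norm_add_Dn_le 1 h.le
      have h2 : Dn 0 z = 0 := rfl
      rw [zero_add, h2, sub_zero]
      have h3 : Dn 1 z = (z + Dn 1 z) - z := by ring
      rw [h3]
      exact (norm_sub_le _ _).trans (by linarith)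
  | succ n ih =>
    have e1 : Dn (n + 1 + 1) z = tw (z + Dn (n + 1) (4 * z - 2) / 4 + Dn (n + 1) (4 * z + 2) / 4) - z :=
      rfl
    have e2 : Dn (n + 1) z = tw (z + Dn n (4 * z - 2) / 4 + Dn n (4 * z + 2) / 4) - z := rfl
    rw [e1, e2, sub_sub_sub_cancel_right]
    have hD1 : ∀ z : ℂ, 1 ≤ ‖z‖ → Dn (n + 1) z = 0 := fun z hz => Dn_of_ge (n + 1) hz
    have hD0 : ∀ z : ℂ, 1 ≤ ‖z‖ → Dn n z = 0 := fun z hz => Dn_of_ge n hz
    have key : ∀ w : ℂ, ∀ s : ℂ, ‖s + (w + Dn (n + 1) w) / 4‖ ≤ 3 / 4 →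
        ‖s + (w + Dn n w) / 4‖ ≤ 3 / 4 →
        ‖tw (s + (w + Dn (n + 1) w) / 4) - tw (s + (w + Dn n w) / 4)‖ ≤ 2 * (1 / 4) ^ (n + 1) := by
      intro w s h1 h2
      rw [tw_of_le (h1.trans (by norm_num)), tw_of_le (h2.trans (by norm_num)), ← mul_sub,
        norm_mul, norm_I, one_mul]
      have e3 : s + (w + Dn (n + 1) w) / 4 - (s + (w + Dn n w) / 4) =
          (Dn (n + 1) w - Dn n w) / 4 := by ring
      rw [e3, norm_div]
      have := ih w
      norm_num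
      rw [pow_succ]
      linarith
    rcases cases3 z with ⟨w, hw, rfl⟩ | ⟨w, hw, rfl⟩ | ⟨h1, h2⟩
    · rw [step_right hD1 hw, step_right hD0 hw]
      exact key w _ (norm_half_add (norm_add_Dn_le _ hw)) (norm_half_add (norm_add_Dn_le _ hw))
    · rw [step_left hD1 hw, step_left hD0 hw]
      exact key w _ (norm_half_sub (norm_add_Dn_le _ hw)) (norm_half_sub (norm_add_Dn_le _ hw))
    · rw [step_mid hD1 h1 h2, step_mid hD0 h1 h2, sub_self, norm_zero]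
      positivity

theorem dist_Dn_le (z : ℂ) (n : ℕ) : dist (Dn n z) (Dn (n + 1) z) ≤ 2 * (1 / 4) ^ n := by
  rw [dist_comm, dist_eq_norm]
  exact norm_Dn_sub_le n z

theorem exists_limit (z : ℂ) : ∃ d, Tendsto (fun n => Dn n z) atTop (𝓝 d) :=
  cauchySeq_tendsto_of_complete
    (cauchySeq_of_le_geometric (1 / 4) 2 (by norm_num) (dist_Dn_le z))

/-- the limit displacement -/
noncomputable def Dlim (z : ℂ) : ℂ := (exists_limit z).choose

theorem tendsto_Dn (z : ℂ) : Tendsto (fun n => Dn n z) atTop (𝓝 (Dlim z)) :=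
  (exists_limit z).choose_spec

theorem dist_Dn_Dlim (z : ℂ) (n : ℕ) : dist (Dn n z) (Dlim z) ≤ 2 * (1 / 4) ^ n / (1 - 1 / 4) :=
  dist_le_of_le_geometric_of_tendsto (1 / 4) 2 (by norm_num) (dist_Dn_le z) (tendsto_Dn z) n

theorem continuous_Dlim : Continuous Dlim := by
  have h : TendstoUniformly (fun n z => Dn n z) Dlim atTop := by
    rw [Metric.tendstoUniformly_iff]
    intro ε hε
    have ht : Tendsto (fun n : ℕ => 2 * (1 / 4 : ℝ) ^ n / (1 - 1 / 4)) atTop (𝓝 0) := by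
      have := ((tendsto_pow_atTop_nhds_zero_of_lt_one (r := (1 / 4 : ℝ)) (by norm_num)
        (by norm_num)).const_mul 2).div_const (1 - 1 / 4)
      simpa using this
    filter_upwards [ht.eventually (gt_mem_nhds hε)] with n hn z
    rw [dist_comm]
    exact (dist_Dn_Dlim z n).trans_lt hn
  exact h.continuous (Frequently.of_forall fun n => continuous_Dn n)

theorem Dlim_of_ge {z : ℂ} (h : 1 ≤ ‖z‖) : Dlim z = 0 := by
  have h1 := tendsto_Dn z
  simp_rw [Dn_of_ge _ h] at h1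
  exact tendsto_nhds_unique h1 tendsto_const_nhds |>.symm ▸ rfl

theorem Dlim_eq (z : ℂ) : Dlim z = tw (z + Dlim (4 * z - 2) / 4 + Dlim (4 * z + 2) / 4) - z := by
  have h1 : Tendsto (fun n => Dn (n + 1) z) atTop (𝓝 (Dlim z)) :=
    (tendsto_add_atTop_iff_nat 1).2 (tendsto_Dn z)
  have h2 : Tendsto (fun n => Dn (n + 1) z) atTop
      (𝓝 (tw (z + Dlim (4 * z - 2) / 4 + Dlim (4 * z + 2) / 4) - z)) := by
    have h3 : Tendsto (fun n => z + Dn n (4 * z - 2) / 4 + Dn n (4 * z + 2) / 4) atTop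
        (𝓝 (z + Dlim (4 * z - 2) / 4 + Dlim (4 * z + 2) / 4)) :=
      (tendsto_const_nhds.add ((tendsto_Dn _).div_const 4)).add ((tendsto_Dn _).div_const 4)
    exact ((continuous_tw.tendsto _).comp h3).sub_const z
  exact tendsto_nhds_unique h1 h2

theorem norm_add_Dlim_le {z : ℂ} (h : ‖z‖ ≤ 1) : ‖z + Dlim z‖ ≤ 1 := by
  have h1 : Tendsto (fun n => ‖z + Dn n z‖) atTop (𝓝 ‖z + Dlim z‖) :=
    (tendsto_const_nhds.add (tendsto_Dn z)).norm
  exact le_of_tendsto h1 (Eventually.of_forall fun n => norm_add_Dn_le n h)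

/-- the self-similar twist map -/
noncomputable def F (z : ℂ) : ℂ := z + Dlim z

theorem continuous_F : Continuous F := continuous_id.add continuous_Dlim

theorem F_of_ge {z : ℂ} (h : 1 ≤ ‖z‖) : F z = z := by
  unfold F; rw [Dlim_of_ge h, add_zero]

theorem norm_F_le {z : ℂ} (h : ‖z‖ ≤ 1) : ‖F z‖ ≤ 1 := norm_add_Dlim_le h

theorem F_mid {z : ℂ} (h1 : 1 / 4 ≤ ‖z - 1 / 2‖) (h2 : 1 / 4 ≤ ‖z + 1 / 2‖) : F z = tw z := by
  unfold F
  rw [Dlim_eq, step_mid (fun z hz => Dlim_of_ge hz) h1 h2]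
  ring

theorem F_right {w : ℂ} (hw : ‖w‖ ≤ 1) : F (1 / 2 + w / 4) = I * (1 / 2 + F w / 4) := by
  have h1 : F (1 / 2 + w / 4) = tw (1 / 2 + F w / 4) := by
    unfold F
    rw [Dlim_eq, step_right (fun z hz => Dlim_of_ge hz) hw]
    ring
  rw [h1, tw_of_le ((norm_half_add (norm_F_le hw)).trans (by norm_num))]

theorem F_left {w : ℂ} (hw : ‖w‖ ≤ 1) : F (-(1 / 2) + w / 4) = I * (-(1 / 2) + F w / 4) := by
  have h1 : F (-(1 / 2) + w / 4) = tw (-(1 / 2) + F w / 4) := by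
    unfold F
    rw [Dlim_eq, step_left (fun z hz => Dlim_of_ge hz) hw]
    ring
  rw [h1, tw_of_le ((norm_half_sub (norm_F_le hw)).trans (by norm_num))]

theorem norm_F_sub_le (z : ℂ) : ‖F z - z‖ ≤ 2 := by
  by_cases h : 1 ≤ ‖z‖
  · rw [F_of_ge h]; simp
  · push Not at h
    exact (norm_sub_le _ _).trans (by linarith [norm_F_le h.le])

/-- the image of the middle region avoids the images of the closed child discs, except on their
boundary -/
theorem F_eq_imp {z z' : ℂ} (h : F z = F z') (hne : z ≠ z') :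
    ‖z - z'‖ ≤ 2 ∧ ∃ w w', F w = F w' ∧ w ≠ w' ∧ ‖w - w'‖ = 4 * ‖z - z'‖ := by
  -- both in the closed unit disc
  have hz1 : ‖z‖ ≤ 1 ∧ ‖z'‖ ≤ 1 := by
    by_cases h1 : 1 ≤ ‖z‖ <;> by_cases h2 : 1 ≤ ‖z'‖
    · rw [F_of_ge h1, F_of_ge h2] at h
      exact absurd h hne
    · push Not at h2
      have h3 : ‖z‖ ≤ 1 := by
        have := norm_F_le h2.le
        rwa [← h, F_of_ge h1] at this
      exact ⟨h3, h2.le⟩
    · push Not at h1
      have h3 : ‖z'‖ ≤ 1 := by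
        have := norm_F_le h1.le
        rwa [h, F_of_ge h2] at this
      exact ⟨h1.le, h3⟩
    · push Not at h1 h2
      exact ⟨h1.le, h2.le⟩
  refine ⟨(norm_sub_le _ _).trans (by linarith [hz1.1, hz1.2]), ?_⟩
  -- middle points whose image is in the image of a child disc are on the boundary of that disc
  have hmidR : ∀ u v : ℂ, 1 / 4 ≤ ‖u - 1 / 2‖ → 1 / 4 ≤ ‖u + 1 / 2‖ → ‖v‖ ≤ 1 →
      F u = F (1 / 2 + v / 4) → ∃ w, ‖w‖ ≤ 1 ∧ u = 1 / 2 + w / 4 := by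
    intro u v hu1 hu2 hv huv
    rw [F_mid hu1 hu2, F_right hv] at huv
    have hb := norm_half_add (norm_F_le hv)
    have hnu : ‖u‖ ≤ 3 / 4 := by
      rw [← norm_tw u, huv, norm_mul, norm_I, one_mul]; exact hb
    rw [tw_of_le (hnu.trans (by norm_num))] at huv
    have := mul_left_cancel₀ I_ne_zero huv
    exact ⟨F v, norm_F_le hv, this⟩
  have hmidL : ∀ u v : ℂ, 1 / 4 ≤ ‖u - 1 / 2‖ → 1 / 4 ≤ ‖u + 1 / 2‖ → ‖v‖ ≤ 1 →
      F u = F (-(1 / 2) + v / 4) → ∃ w, ‖w‖ ≤ 1 ∧ u = -(1 / 2) + w / 4 := by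
    intro u v hu1 hu2 hv huv
    rw [F_mid hu1 hu2, F_left hv] at huv
    have hb := norm_half_sub (norm_F_le hv)
    have hnu : ‖u‖ ≤ 3 / 4 := by
      rw [← norm_tw u, huv, norm_mul, norm_I, one_mul]; exact hb
    rw [tw_of_le (hnu.trans (by norm_num))] at huv
    have := mul_left_cancel₀ I_ne_zero huv
    exact ⟨F v, norm_F_le hv, this⟩
  -- the same child disc
  have hsameR : ∀ u v : ℂ, ‖u‖ ≤ 1 → ‖v‖ ≤ 1 → F (1 / 2 + u / 4) = F (1 / 2 + v / 4) →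
      (1 / 2 + u / 4 : ℂ) ≠ 1 / 2 + v / 4 →
      ∃ w w', F w = F w' ∧ w ≠ w' ∧ ‖w - w'‖ = 4 * ‖(1 / 2 + u / 4 : ℂ) - (1 / 2 + v / 4)‖ := by
    intro u v hu hv huv hne'
    rw [F_right hu, F_right hv] at huv
    have h1 := mul_left_cancel₀ I_ne_zero huv
    refine ⟨u, v, ?_, ?_, ?_⟩
    · have := add_left_cancel h1
      field_simp at this
      exact this
    · rintro rfl; exact hne' rfl
    · have e : (1 / 2 + u / 4 : ℂ) - (1 / 2 + v / 4) = (u - v) / 4 := by ring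
      rw [e, norm_div]; norm_num; ring
  have hsameL : ∀ u v : ℂ, ‖u‖ ≤ 1 → ‖v‖ ≤ 1 → F (-(1 / 2) + u / 4) = F (-(1 / 2) + v / 4) →
      (-(1 / 2) + u / 4 : ℂ) ≠ -(1 / 2) + v / 4 →
      ∃ w w', F w = F w' ∧ w ≠ w' ∧ ‖w - w'‖ = 4 * ‖(-(1 / 2) + u / 4 : ℂ) - (-(1 / 2) + v / 4)‖ := by
    intro u v hu hv huv hne'
    rw [F_left hu, F_left hv] at huv
    have h1 := mul_left_cancel₀ I_ne_zero huv
    refine ⟨u, v, ?_, ?_, ?_⟩
    · have := add_left_cancel h1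
      field_simp at this
      exact this
    · rintro rfl; exact hne' rfl
    · have e : (-(1 / 2) + u / 4 : ℂ) - (-(1 / 2) + v / 4) = (u - v) / 4 := by ring
      rw [e, norm_div]; norm_num; ring
  -- different child discs
  have hdiff : ∀ u v : ℂ, ‖u‖ ≤ 1 → ‖v‖ ≤ 1 → F (1 / 2 + u / 4) ≠ F (-(1 / 2) + v / 4) := by
    intro u v hu hv huv
    rw [F_right hu, F_left hv] at huv
    have h1 := mul_left_cancel₀ I_ne_zero huv
    have h2 : (1 : ℂ) = (F v - F u) / 4 := by linear_combination h1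
    have h3 : (1 : ℝ) ≤ 1 / 2 := by
      calc (1 : ℝ) = ‖(1 : ℂ)‖ := by simp
        _ = ‖(F v - F u) / 4‖ := by rw [← h2]
        _ = ‖F v - F u‖ / 4 := by rw [norm_div]; norm_num
        _ ≤ (‖F v‖ + ‖F u‖) / 4 := by
            have := norm_sub_le (F v) (F u)
            linarith
        _ ≤ 1 / 2 := by linarith [norm_F_le hu, norm_F_le hv]
    norm_num at h3
  rcases cases3 z with ⟨w, hw, rfl⟩ | ⟨w, hw, rfl⟩ | ⟨h1, h2⟩ <;>
    rcases cases3 z' with ⟨w', hw', rfl⟩ | ⟨w', hw', rfl⟩ | ⟨h1', h2'⟩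
  · exact hsameR w w' hw hw' h hne
  · exact absurd h (hdiff w w' hw hw')
  · obtain ⟨w'', hw'', rfl⟩ := hmidR z' w h1' h2' hw h.symm
    exact hsameR w w'' hw hw'' h hne
  · exact absurd h.symm (hdiff w' w hw' hw)
  · exact hsameL w w' hw hw' h hne
  · obtain ⟨w'', hw'', rfl⟩ := hmidL z' w h1' h2' hw h.symm
    exact hsameL w w'' hw hw'' h hne
  · obtain ⟨w'', hw'', rfl⟩ := hmidR z w' h1 h2 hw' h
    exact hsameR w'' w' hw'' hw' h hne
  · obtain ⟨w'', hw'', rfl⟩ := hmidL z w' h1 h2 hw' h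
    exact hsameL w'' w' hw'' hw' h hne
  · rw [F_mid h1 h2, F_mid h1' h2'] at h
    exact absurd (tw_injective h) hne

theorem F_injective : Function.Injective F := by
  intro z z' h
  by_contra hne
  have key : ∀ n : ℕ, ∀ z z' : ℂ, F z = F z' → z ≠ z' → 4 ^ n * ‖z - z'‖ ≤ 2 := by
    intro n
    induction n with
    | zero => intro z z' h hne; simpa using (F_eq_imp h hne).1
    | succ n ih =>
      intro z z' h hne
      obtain ⟨_, w, w', hw, hw', hww⟩ := F_eq_imp h hne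
      have := ih w w' hw hw'
      rw [hww] at this
      rw [pow_succ]
      linarith
  have hpos : 0 < ‖z - z'‖ := norm_pos_iff.2 (sub_ne_zero.2 hne)
  obtain ⟨n, hn⟩ := pow_unbounded_of_one_lt (2 / ‖z - z'‖) (show (1 : ℝ) < 4 by norm_num)
  have h1 := key n z z' h hne
  rw [div_lt_iff₀ hpos] at hn
  linarith

end Pool.Agent.Lib.MP_4d0de2_an
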