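import Pool.Agent.Lib.MP_4d0de2_an.Twist
import Pool.Agent.Lib.MP_4d0de2_an.Cantor

/-!
# Digit sequences, the Cantor dust and its coding
-/

namespace Pool.Agent.Lib.MP_4d0de2_an

open Filter Topology Set Complex

/-- the sign of a digit -/
def sg (b : Bool) : ℝ := if b then 1 else -1

theorem abs_sg (b : Bool) : |sg b| = 1 := by cases b <;> simp [sg]

/-- the shift of a digit sequence -/
def sh (s : ℕ → Bool) : ℕ → Bool := fun j => s (j + 1)

/-- the point of the line coded by `s` -/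
noncomputable def mm (s : ℕ → Bool) : ℝ := ∑' j : ℕ, (1 / 4 : ℝ) ^ j * (sg (s j) / 2)

/-- the point of the plane coded by `s` -/
noncomputable def kk (s : ℕ → Bool) : ℂ := ∑' j : ℕ, (I / 4 : ℂ) ^ j * (I * (sg (s j) / 2 : ℝ))

theorem hasSum_quarter : HasSum (fun j : ℕ => (1 / 4 : ℝ) ^ j * (1 / 2)) (2 / 3) := by
  have := (hasSum_geometric_of_lt_one (r := (1 / 4 : ℝ)) (by norm_num) (by norm_num)).mul_right
    (1 / 2)
  rwa [show (1 - (1 / 4 : ℝ))⁻¹ * (1 / 2) = 2 / 3 by norm_num] at this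

theorem bound_mm (s : ℕ → Bool) (j : ℕ) :
    ‖(1 / 4 : ℝ) ^ j * (sg (s j) / 2)‖ ≤ (1 / 4 : ℝ) ^ j * (1 / 2) := by
  rw [norm_mul, norm_div, Real.norm_eq_abs, Real.norm_eq_abs (sg (s j)), abs_sg]
  rw [abs_of_pos (by positivity)]
  norm_num

theorem bound_kk (s : ℕ → Bool) (j : ℕ) :
    ‖(I / 4 : ℂ) ^ j * (I * (sg (s j) / 2 : ℝ))‖ ≤ (1 / 4 : ℝ) ^ j * (1 / 2) := by
  rw [norm_mul, norm_pow, norm_div, norm_I, norm_mul, norm_I, one_mul, Complex.norm_real,
    norm_div, Real.norm_eq_abs (sg (s j)), abs_sg]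
  norm_num

theorem summable_mm (s : ℕ → Bool) : Summable fun j : ℕ => (1 / 4 : ℝ) ^ j * (sg (s j) / 2) :=
  Summable.of_norm_bounded hasSum_quarter.summable (bound_mm s)

theorem summable_kk (s : ℕ → Bool) :
    Summable fun j : ℕ => (I / 4 : ℂ) ^ j * (I * (sg (s j) / 2 : ℝ)) :=
  Summable.of_norm_bounded hasSum_quarter.summable (bound_kk s)

theorem abs_mm_le (s : ℕ → Bool) : |mm s| ≤ 2 / 3 := by
  rw [← Real.norm_eq_abs]
  exact tsum_of_norm_bounded hasSum_quarter (bound_mm s)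

theorem norm_kk_le (s : ℕ → Bool) : ‖kk s‖ ≤ 2 / 3 :=
  tsum_of_norm_bounded hasSum_quarter (bound_kk s)

theorem mm_succ (s : ℕ → Bool) : mm s = sg (s 0) / 2 + mm (sh s) / 4 := by
  unfold mm
  rw [(summable_mm s).tsum_eq_zero_add, pow_zero, one_mul, ← tsum_div_const]
  congr 1
  refine tsum_congr fun j => ?_
  rw [pow_succ, sh]; ring

theorem kk_succ (s : ℕ → Bool) : kk s = I * ((sg (s 0) / 2 : ℝ) + kk (sh s) / 4) := by
  unfold kk
  rw [(summable_kk s).tsum_eq_zero_add, pow_zero, one_mul, mul_add, ← tsum_div_const,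
    ← tsum_mul_left]
  congr 1
  refine tsum_congr fun j => ?_
  rw [pow_succ, sh]; ring

theorem F_child (b : Bool) {w : ℂ} (hw : ‖w‖ ≤ 1) :
    F ((sg b / 2 : ℝ) + w / 4) = I * ((sg b / 2 : ℝ) + F w / 4) := by
  cases b
  · have e : ((sg false / 2 : ℝ) : ℂ) = -(1 / 2) := by
      simp only [sg]; push_cast; norm_num
    rw [e]; exact F_left hw
  · have e : ((sg true / 2 : ℝ) : ℂ) = 1 / 2 := by simp [sg]
    rw [e]; exact F_right hw

theorem norm_child_le (b : Bool) {w : ℂ} (hw : ‖w‖ ≤ 1) : ‖((sg b / 2 : ℝ) : ℂ) + w / 4‖ ≤ 1 := by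
  have h1 := norm_add_le ((sg b / 2 : ℝ) : ℂ) (w / 4)
  have h2 : ‖((sg b / 2 : ℝ) : ℂ)‖ = 1 / 2 := by
    rw [Complex.norm_real, norm_div, Real.norm_eq_abs, abs_sg]; norm_num
  have h3 : ‖w / 4‖ = ‖w‖ / 4 := by simp
  rw [h2, h3] at h1
  linarith

theorem norm_mm_le_one (s : ℕ → Bool) : ‖(mm s : ℂ)‖ ≤ 1 := by
  rw [Complex.norm_real, Real.norm_eq_abs]
  exact (abs_mm_le s).trans (by norm_num)

theorem F_mm (s : ℕ → Bool) : F (mm s) = kk s := by
  have key : ∀ n : ℕ, ∀ s : ℕ → Bool, ‖F (mm s) - kk s‖ ≤ 2 * (1 / 4) ^ n := by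
    intro n
    induction n with
    | zero =>
      intro s
      have h1 := norm_F_le (norm_mm_le_one s)
      have h2 := norm_kk_le s
      have h3 := norm_sub_le (F (mm s)) (kk s)
      rw [pow_zero]; linarith
    | succ n ih =>
      intro s
      have h1 : ((mm s : ℝ) : ℂ) = (sg (s 0) / 2 : ℝ) + (mm (sh s) : ℂ) / 4 := by
        rw [mm_succ s]; push_cast; ring
      rw [h1, F_child _ (norm_mm_le_one (sh s)), kk_succ s, ← mul_sub, norm_mul, norm_I, one_mul]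
      have e : ((sg (s 0) / 2 : ℝ) : ℂ) + F (mm (sh s)) / 4 - ((sg (s 0) / 2 : ℝ) + kk (sh s) / 4) =
          (F (mm (sh s)) - kk (sh s)) / 4 := by ring
      rw [e, norm_div]
      have := ih (sh s)
      norm_num
      rw [pow_succ]
      linarith
  have h0 : ‖F (mm s) - kk s‖ ≤ 0 := by
    have ht : Tendsto (fun n : ℕ => 2 * (1 / 4 : ℝ) ^ n) atTop (𝓝 0) := by
      have := (tendsto_pow_atTop_nhds_zero_of_lt_one (r := (1 / 4 : ℝ)) (by norm_num)
        (by norm_num)).const_mul 2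
      simpa using this
    exact ge_of_tendsto' ht fun n => key n s
  exact sub_eq_zero.1 (norm_eq_zero.1 (le_antisymm h0 (norm_nonneg _)))

theorem abs_re_kk_le (s : ℕ → Bool) : |(kk s).re| ≤ 1 / 6 := by
  rw [kk_succ s]
  have e : (I * ((sg (s 0) / 2 : ℝ) + kk (sh s) / 4)).re = -(kk (sh s)).im / 4 := by
    have h4 : (kk (sh s) / 4).im = (kk (sh s)).im / 4 := by simp
    simp only [Complex.mul_re, Complex.I_re, Complex.I_im, Complex.add_im, Complex.ofReal_im, h4]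
    ring
  rw [e, abs_div, abs_neg]
  have h1 := Complex.abs_im_le_norm (kk (sh s))
  have h2 := norm_kk_le (sh s)
  norm_num
  linarith

/-- centers of the discs of level `k`, on the line -/
noncomputable def mk : (ℕ → Bool) → ℕ → ℝ
  | _, 0 => 0
  | s, (k + 1) => sg (s 0) / 2 + mk (sh s) k / 4

/-- centers of the discs of level `k`, in the plane -/
noncomputable def ck : (ℕ → Bool) → ℕ → ℂ
  | _, 0 => 0
  | s, (k + 1) => I * ((sg (s 0) / 2 : ℝ) + ck (sh s) k / 4)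

theorem norm_mk_add_le (s : ℕ → Bool) (k : ℕ) {w : ℂ} (hw : ‖w‖ ≤ 1) :
    ‖(mk s k : ℂ) + w / 4 ^ k‖ ≤ 1 := by
  induction k generalizing s with
  | zero => simpa [mk] using hw
  | succ k ih =>
    have e : (mk s (k + 1) : ℂ) + w / 4 ^ (k + 1) =
        ((sg (s 0) / 2 : ℝ) : ℂ) + ((mk (sh s) k : ℂ) + w / 4 ^ k) / 4 := by
      rw [mk, pow_succ]; push_cast; field_simp; ring
    rw [e]
    exact norm_child_le _ (ih (sh s))

theorem F_mk_add (s : ℕ → Bool) (k : ℕ) {w : ℂ} (hw : ‖w‖ ≤ 1) :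
    F ((mk s k : ℂ) + w / 4 ^ k) = ck s k + (I / 4) ^ k * F w := by
  induction k generalizing s with
  | zero => simp [mk, ck]
  | succ k ih =>
    have e : (mk s (k + 1) : ℂ) + w / 4 ^ (k + 1) =
        ((sg (s 0) / 2 : ℝ) : ℂ) + ((mk (sh s) k : ℂ) + w / 4 ^ k) / 4 := by
      rw [mk, pow_succ]; push_cast; field_simp; ring
    rw [e, F_child _ (norm_mk_add_le (sh s) k hw), ih (sh s), ck, pow_succ]
    ring

theorem mm_eq (s : ℕ → Bool) (k : ℕ) : mm s = mk s k + mm (sh^[k] s) / 4 ^ k := by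
  induction k generalizing s with
  | zero => simp [mk]
  | succ k ih =>
    rw [mm_succ s, ih (sh s), mk, Function.iterate_succ_apply, pow_succ]
    field_simp
    ring

theorem kk_eq (s : ℕ → Bool) (k : ℕ) : kk s = ck s k + (I / 4) ^ k * kk (sh^[k] s) := by
  induction k generalizing s with
  | zero => simp [ck]
  | succ k ih =>
    rw [kk_succ s, ih (sh s), ck, Function.iterate_succ_apply, pow_succ]
    ring

/-! ### The coding map -/

/-- first coordinate of the code -/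
noncomputable def G1 (p : ℂ) : ℝ := g (8 * p.re)

/-- second coordinate of the code -/
noncomputable def G2 (p : ℂ) : ℝ := g (2 * p.im)

theorem re_rho (b : Bool) (p : ℂ) : (I * ((sg b / 2 : ℝ) + p / 4)).re = -p.im / 4 := by
  have h4 : (p / 4).im = p.im / 4 := by simp
  simp only [Complex.mul_re, Complex.I_re, Complex.I_im, Complex.add_im, Complex.ofReal_im, h4]
  ring

theorem im_rho (b : Bool) (p : ℂ) : (I * ((sg b / 2 : ℝ) + p / 4)).im = sg b / 2 + p.re / 4 := by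
  have h4 : (p / 4).re = p.re / 4 := by simp
  simp only [Complex.mul_im, Complex.I_re, Complex.I_im, Complex.add_re, Complex.ofReal_re, h4]
  ring

theorem G1_rho (b : Bool) (p : ℂ) : G1 (I * ((sg b / 2 : ℝ) + p / 4)) = 1 - G2 p := by
  unfold G1 G2
  rw [re_rho, ← g_neg]
  congr 1; ring

theorem G2_rho (b : Bool) {p : ℂ} (hp : ‖p‖ ≤ 3) :
    G2 (I * ((sg b / 2 : ℝ) + p / 4)) = (1 + sg b) / 4 + G1 p / 2 := by
  unfold G1 G2
  rw [im_rho]
  have h1 : |8 * p.re| ≤ 30 := by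
    have := Complex.abs_re_le_norm p
    rw [abs_mul]; norm_num; linarith
  cases b
  · have e : 2 * (sg false / 2 + p.re / 4) = -1 + (8 * p.re) / 16 := by simp [sg]; ring
    rw [e, g_left h1]; simp [sg]
  · have e : 2 * (sg true / 2 + p.re / 4) = 1 + (8 * p.re) / 16 := by simp [sg]; ring
    rw [e, g_right h1]; simp [sg]; norm_num

theorem norm_ck_add_le (s : ℕ → Bool) (k : ℕ) {p : ℂ} (hp : ‖p‖ ≤ 3) :
    ‖ck s k + (I / 4) ^ k * p‖ ≤ 3 := by
  induction k generalizing s with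
  | zero => simpa [ck] using hp
  | succ k ih =>
    have e : ck s (k + 1) + (I / 4) ^ (k + 1) * p =
        I * ((sg (s 0) / 2 : ℝ) + (ck (sh s) k + (I / 4) ^ k * p) / 4) := by
      rw [ck, pow_succ]; ring
    rw [e, norm_mul, norm_I, one_mul]
    have h1 := norm_add_le ((sg (s 0) / 2 : ℝ) : ℂ) ((ck (sh s) k + (I / 4) ^ k * p) / 4)
    have h2 : ‖((sg (s 0) / 2 : ℝ) : ℂ)‖ = 1 / 2 := by
      rw [Complex.norm_real, norm_div, Real.norm_eq_abs, abs_sg]; norm_num
    have h3 : ‖(ck (sh s) k + (I / 4) ^ k * p) / 4‖ = ‖ck (sh s) k + (I / 4) ^ k * p‖ / 4 := by simp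
    rw [h2, h3] at h1
    linarith [ih (sh s)]

/-- the code is constant on the copies of the ball of radius `1/20` around `1` -/
theorem G_const (s : ℕ → Bool) (k : ℕ) {p q : ℂ} (hp : ‖p - 1‖ ≤ 1 / 20) (hq : ‖q - 1‖ ≤ 1 / 20) :
    G1 (ck s k + (I / 4) ^ k * p) = G1 (ck s k + (I / 4) ^ k * q) ∧
    G2 (ck s k + (I / 4) ^ k * p) = G2 (ck s k + (I / 4) ^ k * q) := by
  have hnorm : ∀ p : ℂ, ‖p - 1‖ ≤ 1 / 20 → ‖p‖ ≤ 3 := by
    intro p hp
    have := norm_add_le (p - 1) 1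
    rw [sub_add_cancel, norm_one] at this
    linarith
  induction k generalizing s with
  | zero =>
    have base : ∀ p : ℂ, ‖p - 1‖ ≤ 1 / 20 → G1 p = 1 ∧ G2 p = 1 / 2 := by
      intro p hp
      have h1 := Complex.abs_re_le_norm (p - 1)
      have h2 := Complex.abs_im_le_norm (p - 1)
      simp only [Complex.sub_re, Complex.one_re, Complex.sub_im, Complex.one_im, sub_zero] at h1 h2
      rw [abs_le] at h1
      constructor
      · exact g_of_ge (by linarith [h1.1])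
      · refine g_mid ?_
        rw [abs_mul]; norm_num; linarith
    simp only [ck, pow_zero, one_mul, zero_add]
    rw [(base p hp).1, (base p hp).2, (base q hq).1, (base q hq).2]
    exact ⟨rfl, rfl⟩
  | succ k ih =>
    have e : ∀ p : ℂ, ck s (k + 1) + (I / 4) ^ (k + 1) * p =
        I * ((sg (s 0) / 2 : ℝ) + (ck (sh s) k + (I / 4) ^ k * p) / 4) := by
      intro p
      rw [ck, pow_succ]; ring
    obtain ⟨h1, h2⟩ := ih (sh s)
    rw [e p, e q, G1_rho, G1_rho, G2_rho _ (norm_ck_add_le _ _ (hnorm p hp)),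
      G2_rho _ (norm_ck_add_le _ _ (hnorm q hq)), h1, h2]
    exact ⟨rfl, rfl⟩

/-! ### Surjectivity of the coding -/

/-- one step of the digit expansion -/
noncomputable def st (p : ℝ × ℝ) : ℝ × ℝ := (if 1 / 2 ≤ p.2 then 2 * p.2 - 1 else 2 * p.2, 1 - p.1)

/-- the digits of a point of the square -/
noncomputable def dg (p : ℝ × ℝ) : ℕ → Bool := fun j => decide (1 / 2 ≤ (st^[j] p).2)

theorem sh_dg (p : ℝ × ℝ) : sh (dg p) = dg (st p) := by
  funext j
  exact congrArg (fun q : ℝ × ℝ => decide (1 / 2 ≤ q.2)) (Function.iterate_succ_apply st j p)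

theorem st_mem {p : ℝ × ℝ} (h1 : p.1 ∈ Icc (0 : ℝ) 1) (h2 : p.2 ∈ Icc (0 : ℝ) 1) :
    (st p).1 ∈ Icc (0 : ℝ) 1 ∧ (st p).2 ∈ Icc (0 : ℝ) 1 := by
  obtain ⟨h1a, h1b⟩ := h1
  obtain ⟨h2a, h2b⟩ := h2
  unfold st
  constructor
  · by_cases h : 1 / 2 ≤ p.2
    · simp only [if_pos h]; constructor <;> linarith
    · simp only [if_neg h]
      push Not at h
      constructor <;> linarith
  · constructor <;> simp only <;> linarith

theorem G1_kk_dg (p : ℝ × ℝ) : G1 (kk (dg p)) = 1 - G2 (kk (dg (st p))) := by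
  rw [kk_succ (dg p), sh_dg, G1_rho]

theorem G2_kk_dg (p : ℝ × ℝ) : G2 (kk (dg p)) - p.2 = (G1 (kk (dg (st p))) - (st p).1) / 2 := by
  rw [kk_succ (dg p), sh_dg, G2_rho _ ((norm_kk_le _).trans (by norm_num))]
  have h0 : dg p 0 = decide (1 / 2 ≤ p.2) := rfl
  rw [h0]
  by_cases h : 1 / 2 ≤ p.2
  · simp only [st, if_pos h, sg, decide_eq_true_eq]; ring
  · simp only [st, if_neg h, sg, decide_eq_true_eq]; ring

theorem G_kk_dg_bound (n : ℕ) : ∀ p : ℝ × ℝ, p.1 ∈ Icc (0 : ℝ) 1 → p.2 ∈ Icc (0 : ℝ) 1 →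
    |G1 (kk (dg p)) - p.1| ≤ (1 / 2) ^ n ∧ |G2 (kk (dg p)) - p.2| ≤ (1 / 2) ^ n := by
  induction n with
  | zero =>
    intro p h1 h2
    rw [pow_zero]
    have a1 := g_nonneg (8 * (kk (dg p)).re)
    have a2 := g_le_one (8 * (kk (dg p)).re)
    have a3 := g_nonneg (2 * (kk (dg p)).im)
    have a4 := g_le_one (2 * (kk (dg p)).im)
    unfold G1 G2
    constructor
    · rw [abs_le]; constructor <;> linarith [h1.1, h1.2]
    · rw [abs_le]; constructor <;> linarith [h2.1, h2.2]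
  | succ n ih =>
    intro p h1 h2
    obtain ⟨m1, m2⟩ := st_mem h1 h2
    obtain ⟨m3, m4⟩ := st_mem m1 m2
    constructor
    · have e : G1 (kk (dg p)) - p.1 = -(G2 (kk (dg (st p))) - (st p).2) := by
        rw [G1_kk_dg p]; simp only [st]; ring
      rw [e, abs_neg, G2_kk_dg, abs_div, abs_two, pow_succ]
      have := (ih (st (st p)) m3 m4).1
      linarith
    · rw [G2_kk_dg, abs_div, abs_two, pow_succ]
      have := (ih (st p) m1 m2).1
      linarith

/-- every point of the unit square is a code -/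
theorem G_surj {u v : ℝ} (hu : u ∈ Icc (0 : ℝ) 1) (hv : v ∈ Icc (0 : ℝ) 1) :
    ∃ s : ℕ → Bool, G1 (kk s) = u ∧ G2 (kk s) = v := by
  refine ⟨dg (u, v), ?_, ?_⟩
  · have ht : Tendsto (fun n : ℕ => (1 / 2 : ℝ) ^ n) atTop (𝓝 0) :=
      tendsto_pow_atTop_nhds_zero_of_lt_one (by norm_num) (by norm_num)
    have h0 : |G1 (kk (dg (u, v))) - u| ≤ 0 :=
      ge_of_tendsto' ht fun n => (G_kk_dg_bound n (u, v) hu hv).1
    exact sub_eq_zero.1 (abs_eq_zero.1 (le_antisymm h0 (abs_nonneg _)))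
  · have ht : Tendsto (fun n : ℕ => (1 / 2 : ℝ) ^ n) atTop (𝓝 0) :=
      tendsto_pow_atTop_nhds_zero_of_lt_one (by norm_num) (by norm_num)
    have h0 : |G2 (kk (dg (u, v))) - v| ≤ 0 :=
      ge_of_tendsto' ht fun n => (G_kk_dg_bound n (u, v) hu hv).2
    exact sub_eq_zero.1 (abs_eq_zero.1 (le_antisymm h0 (abs_nonneg _)))

end Pool.Agent.Lib.MP_4d0de2_an
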